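import Mathlib

/-!
# Two lemmas on acyclic graphs
-/

namespace Pool.Agent.H801.Fvs

open SimpleGraph

/-- A graph is acyclic if each vertex has at most one neighbour of at most its rank. -/
theorem acyclic_of_rank {V : Type*} (G : SimpleGraph V) (ρ : V → ℕ)
    (h : ∀ v a b, G.Adj v a → G.Adj v b → ρ a ≤ ρ v → ρ b ≤ ρ v → a = b) : G.IsAcyclic := by
  classical
  intro v c hc
  obtain ⟨x, hx, hmax⟩ : ∃ x ∈ c.support, ∀ y ∈ c.support, ρ y ≤ ρ x := by
    have hne : c.support.toFinset.Nonempty := ⟨v, by simp⟩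
    obtain ⟨x, hx, hm⟩ := Finset.exists_max_image c.support.toFinset ρ hne
    exact ⟨x, by simpa using hx, fun y hy => hm y (by simpa using hy)⟩
  have hc' := hc.rotate hx
  have hsup : ∀ y ∈ (c.rotate x hx).support, ρ y ≤ ρ x := fun y hy =>
    hmax y ((Walk.mem_support_rotate_iff c x hx).1 hy)
  have hnil := hc'.not_nil
  refine hc'.snd_ne_penultimate (h x _ _ (Walk.adj_snd hnil) (Walk.adj_penultimate hnil).symm
    (hsup _ (Walk.getVert_mem_support _ _)) (hsup _ (Walk.getVert_mem_support _ _)))

/-- An acyclic graph contains no cyclic sequence of `m ≥ 3` different vertices. -/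
theorem no_cycle {V : Type*} {G : SimpleGraph V} (hG : G.IsAcyclic) {m : ℕ} (hm : 3 ≤ m)
    (a : ℕ → V) (hinj : ∀ i j, i < m → j < m → a i = a j → i = j)
    (hadj : ∀ i, i + 1 < m → G.Adj (a i) (a (i + 1))) (hlast : G.Adj (a (m - 1)) (a 0)) :
    False := by
  rw [isAcyclic_iff_forall_adj_isBridge] at hG
  have h1 := hG hlast
  rw [isBridge_iff] at h1
  apply h1
  apply Reachable.symm
  have key : ∀ j, j < m → (G.deleteEdges {s(a (m - 1), a 0)}).Reachable (a 0) (a j) := by
    intro j
    induction j with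
    | zero => intro _; exact Reachable.refl _
    | succ j ih =>
      intro hj
      refine (ih (by omega)).trans (Adj.reachable ?_)
      rw [deleteEdges_adj]
      refine ⟨hadj j hj, ?_⟩
      rw [Set.mem_singleton_iff, Sym2.eq_iff]
      rintro (⟨h2, h3⟩ | ⟨h2, h3⟩)
      · have := hinj _ _ hj (by omega) h3
        omega
      · have := hinj _ _ (by omega) (by omega) h2
        have := hinj _ _ hj (by omega) h3
        omega
  exact key (m - 1) (by omega)

end Pool.Agent.H801.Fvs
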