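import Pool.Agent.H801.Fvs.Graph
import Pool.Agent.NPC.Sat

/-!
# The disjunction of many 3SAT instances as a selection problem
-/

namespace Pool.Agent.H801.Fvs

open Pool.Agent.NPC

/-- Clauses. -/
abbrev Cl : Type := Lit ℕ × Lit ℕ × Lit ℕ

/-- 3-CNF formulas. -/
abbrev F3 : Type := List Cl

/-- A bit of a number. -/
def bit (j b : ℕ) : ℕ := if j.bits.getD b false = true then 1 else 0

/-- A formula with at most `N` clauses and variables below `3 N`. -/
def good (N : ℕ) (φ : F3) : Bool :=
  decide (φ.length ≤ N) && φ.all (fun c => decide (c.1.2 < N + N + N) &&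
    (decide (c.2.1.2 < N + N + N) && decide (c.2.2.2 < N + N + N)))

/-- The blocking element. -/
def bl : E := (2, 0, 0, 0)

/-- Three sets which cannot be selected (except in the first group). -/
def pads : List (List E) := [[bl], [bl], [bl]]

/-- The universe. -/
def uni (N L : ℕ) : List E :=
  bl :: ((List.range (N + N + N)).flatMap (fun x => (List.range N).flatMap (fun i =>
      [((0, 0, x, i) : E), (0, 1, x, i)])) ++
    (List.range N).flatMap (fun i => (List.range L).flatMap (fun b =>
      [((1, 0, i, b) : E), (1, 1, i, b)])))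

/-- The code of an index. -/
def idp (L i j : ℕ) : List E := (List.range L).map (fun b => (1, bit j b, i, b))

/-- The complementary code of an index. -/
def idn (L i j : ℕ) : List E := (List.range L).map (fun b => (1, 1 - bit j b, i, b))

/-- All occurrences of a literal. -/
def vt (N x s : ℕ) : List E := (List.range N).map (fun i => (0, s, x, i))

/-- The selector group. -/
def slc (N L : ℕ) (Φ : List F3) : List (List E) :=
  Φ.zipIdx.map (fun g => (List.range N).flatMap (fun i => idp L i g.2))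

/-- A literal in the `i`-th clause. -/
def litE (i : ℕ) (l : Lit ℕ) : E := (0, if l.1 = true then 1 else 0, l.2, i)

/-- The choices for a clause. -/
def ch (L i j : ℕ) (o : Option Cl) : List (List E) :=
  match o with
  | none => [idn L i j]
  | some c => [litE i c.1 :: idn L i j, litE i c.2.1 :: idn L i j, litE i c.2.2 :: idn L i j]

/-- The group of a clause. -/
def clg (L i : ℕ) (Φ : List F3) : List (List E) :=
  Φ.zipIdx.flatMap (fun g => ch L i g.2 g.1[i]?)

/-- The groups. -/
def grp (N L : ℕ) (Φ : List F3) (q : ℕ) : List (List E) :=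
  if q = 0 then pads else if q ≤ N + N + N then pads ++ [vt N (q - 1) 0, vt N (q - 1) 1]
    else if q = N + N + N + 1 then pads ++ slc N L Φ else pads ++ clg L (q - (N + N + N + 2)) Φ

/-- The list of the groups. -/
def grps (N L : ℕ) (Φ : List F3) : List (List (List E)) :=
  (List.range (N + N + N + (N + 2))).map (grp N L Φ)

theorem bit_eq (j b : ℕ) : bit j b = if j.testBit b = true then 1 else 0 := by
  unfold bit
  rw [Nat.testBit_eq_inth, List.getI_eq_getElem?_getD, List.getD_eq_getElem?_getD]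
  rfl

theorem bit_le (j b : ℕ) : bit j b ≤ 1 := by unfold bit; split_ifs <;> simp

theorem eq_of_bit {L j j' : ℕ} (hj : j < 2 ^ L) (hj' : j' < 2 ^ L)
    (h : ∀ b < L, bit j b = bit j' b) : j = j' := by
  apply Nat.eq_of_testBit_eq
  intro b
  by_cases hb : b < L
  · have := h b hb
    rw [bit_eq, bit_eq] at this
    cases h1 : j.testBit b <;> cases h2 : j'.testBit b <;> simp [h1, h2] at this ⊢
  · have hp : 2 ^ L ≤ 2 ^ b := Nat.pow_le_pow_right (by norm_num) (by omega)
    rw [Nat.testBit_lt_two_pow (lt_of_lt_of_le hj hp), Nat.testBit_lt_two_pow (lt_of_lt_of_le hj' hp)]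

theorem grps_len (N L : ℕ) (Φ : List F3) : (grps N L Φ).length = N + N + N + (N + 2) := by
  simp [grps]

theorem grps_getD {N L : ℕ} {Φ : List F3} {q : ℕ} (hq : q < N + N + N + (N + 2)) :
    (grps N L Φ).getD q [] = grp N L Φ q := by
  simp [grps, List.getD_eq_getElem?_getD, hq]

theorem grps_three (N L : ℕ) (Φ : List F3) : ∀ g ∈ grps N L Φ, 3 ≤ g.length := by
  intro g hg
  simp only [grps, List.mem_map] at hg
  obtain ⟨q, _, rfl⟩ := hg
  unfold grp
  split_ifs <;> simp [pads]

section

variable {N L : ℕ} {Φ : List F3}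

theorem uni_bl : bl ∈ uni N L := by simp [uni]

theorem uni_lit {s x i : ℕ} (hs : s ≤ 1) (hx : x < N + N + N) (hi : i < N) :
    ((0, s, x, i) : E) ∈ uni N L := by
  unfold uni
  refine List.mem_cons_of_mem _ (List.mem_append_left _ ?_)
  rw [List.mem_flatMap]
  refine ⟨x, by simpa using hx, ?_⟩
  rw [List.mem_flatMap]
  refine ⟨i, by simpa using hi, ?_⟩
  have : s = 0 ∨ s = 1 := by omega
  rcases this with rfl | rfl <;> simp

theorem uni_id {v i b : ℕ} (hv : v ≤ 1) (hi : i < N) (hb : b < L) :
    ((1, v, i, b) : E) ∈ uni N L := by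
  unfold uni
  refine List.mem_cons_of_mem _ (List.mem_append_right _ ?_)
  rw [List.mem_flatMap]
  refine ⟨i, by simpa using hi, ?_⟩
  rw [List.mem_flatMap]
  refine ⟨b, by simpa using hb, ?_⟩
  have : v = 0 ∨ v = 1 := by omega
  rcases this with rfl | rfl <;> simp

/-- What the selected sets look like. -/
def Pr (N j : ℕ) (σ : ℕ → Bool) (q : ℕ) (e : E) : Prop :=
  (q = 0 ∧ e = bl) ∨
  (1 ≤ q ∧ q ≤ N + N + N ∧ ∃ i, e = (0, if σ (q - 1) = true then 0 else 1, q - 1, i)) ∨
  (q = N + N + N + 1 ∧ ∃ i b, e = (1, bit j b, i, b)) ∨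
  (N + N + N + 1 < q ∧ ((∃ l : Lit ℕ, σ l.2 = l.1 ∧
    e = (0, if l.1 = true then 1 else 0, l.2, q - (N + N + N + 2))) ∨
    ∃ b, e = (1, 1 - bit j b, q - (N + N + N + 2), b)))

theorem Pr.eq {j : ℕ} {σ : ℕ → Bool} {q q' : ℕ} {e : E} (h : Pr N j σ q e) (h' : Pr N j σ q' e) :
    q = q' := by
  rcases h with ⟨h1, rfl⟩ | ⟨h1, h2, i, rfl⟩ | ⟨h1, i, b, rfl⟩ | ⟨h1, ⟨l, hl, rfl⟩ | ⟨b, rfl⟩⟩ <;>
  rcases h' with ⟨h1', h'⟩ | ⟨h1', h2', i', h'⟩ | ⟨h1', i', b', h'⟩ |
    ⟨h1', ⟨l', hl', h'⟩ | ⟨b', h'⟩⟩ <;> simp [bl] at h' <;> try omega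
  · exfalso
    obtain ⟨h3, h4, h5⟩ := h'
    rw [h4, hl'] at h3
    cases h6 : l'.1 <;> simp [h6] at h3
  · exfalso
    obtain ⟨h3, h4, h5⟩ := h'
    have := bit_le j b
    subst h5
    omega
  · exfalso
    obtain ⟨h3, h4, h5⟩ := h'
    rw [← h4, hl] at h3
    cases h6 : l.1 <;> simp [h6] at h3
  · exfalso
    obtain ⟨h3, h4, h5⟩ := h'
    have := bit_le j b
    subst h5
    omega

theorem sel_of_sat (φ : F3) (hφ : φ ∈ Φ) (hs : SAT3 φ) : Sel (uni N L) (grps N L Φ) := by
  obtain ⟨σ, hσ⟩ := hs
  obtain ⟨j, hj, hjφ⟩ := List.getElem_of_mem hφ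
  have hz : (φ, j) ∈ Φ.zipIdx := by
    rw [List.mem_zipIdx_iff_getElem?]
    simp only
    rw [List.getElem?_eq_getElem hj, hjφ]
  -- the selection
  have key : ∀ q, ∃ R : List E, q < N + N + N + (N + 2) → R ∈ grp N L Φ q ∧ ∀ e ∈ R, Pr N j σ q e := by
    intro q
    by_cases hq : q < N + N + N + (N + 2)
    swap
    · exact ⟨[], fun h => absurd h hq⟩
    by_cases h0 : q = 0
    · subst h0
      exact ⟨[bl], fun _ => ⟨by simp [grp, pads], fun e he => Or.inl ⟨rfl, by simpa using he⟩⟩⟩
    by_cases h1 : q ≤ N + N + N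
    · refine ⟨vt N (q - 1) (if σ (q - 1) = true then 0 else 1), fun _ => ⟨?_, fun e he => ?_⟩⟩
      · unfold grp
        rw [if_neg h0, if_pos h1]
        cases σ (q - 1) <;> simp
      · unfold vt at he
        rw [List.mem_map] at he
        obtain ⟨i, _, rfl⟩ := he
        exact Or.inr (Or.inl ⟨by omega, h1, i, rfl⟩)
    by_cases h2 : q = N + N + N + 1
    · refine ⟨(List.range N).flatMap (fun i => idp L i j), fun _ => ⟨?_, fun e he => ?_⟩⟩
      · unfold grp
        rw [if_neg h0, if_neg h1, if_pos h2]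
        exact List.mem_append_right _ (List.mem_map.2 ⟨(φ, j), hz, rfl⟩)
      · rw [List.mem_flatMap] at he
        obtain ⟨i, _, he⟩ := he
        unfold idp at he
        rw [List.mem_map] at he
        obtain ⟨b, _, rfl⟩ := he
        exact Or.inr (Or.inr (Or.inl ⟨h2, i, b, rfl⟩))
    have h3 : N + N + N + 1 < q := by omega
    have hgr : grp N L Φ q = pads ++ clg L (q - (N + N + N + 2)) Φ := by
      unfold grp
      rw [if_neg h0, if_neg h1, if_neg h2]
    cases ho : φ[q - (N + N + N + 2)]? with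
    | none =>
      refine ⟨idn L (q - (N + N + N + 2)) j, fun _ => ⟨?_, fun e he => ?_⟩⟩
      · rw [hgr]
        refine List.mem_append_right _ (List.mem_flatMap.2 ⟨(φ, j), hz, ?_⟩)
        simp only
        rw [ho]
        simp [ch]
      · unfold idn at he
        rw [List.mem_map] at he
        obtain ⟨b, _, rfl⟩ := he
        exact Or.inr (Or.inr (Or.inr ⟨h3, Or.inr ⟨b, rfl⟩⟩))
    | some c =>
      have hc := hσ c (List.mem_of_getElem? ho)
      have hl : ∃ l : Lit ℕ, σ l.2 = l.1 ∧ litE (q - (N + N + N + 2)) l ::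
          idn L (q - (N + N + N + 2)) j ∈ ch L (q - (N + N + N + 2)) j (some c) := by
        rcases hc with hc | hc | hc
        · exact ⟨c.1, hc, by simp [ch]⟩
        · exact ⟨c.2.1, hc, by simp [ch]⟩
        · exact ⟨c.2.2, hc, by simp [ch]⟩
      obtain ⟨l, hl, hlm⟩ := hl
      refine ⟨litE (q - (N + N + N + 2)) l :: idn L (q - (N + N + N + 2)) j,
        fun _ => ⟨?_, fun e he => ?_⟩⟩
      · rw [hgr]
        refine List.mem_append_right _ (List.mem_flatMap.2 ⟨(φ, j), hz, ?_⟩)
        simp only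
        rw [ho]
        exact hlm
      · rw [List.mem_cons] at he
        rcases he with rfl | he
        · exact Or.inr (Or.inr (Or.inr ⟨h3, Or.inl ⟨l, hl, rfl⟩⟩))
        · unfold idn at he
          rw [List.mem_map] at he
          obtain ⟨b, _, rfl⟩ := he
          exact Or.inr (Or.inr (Or.inr ⟨h3, Or.inr ⟨b, rfl⟩⟩))
  choose r hr using key
  refine ⟨r, fun q hq => ?_, fun q hq q' hq' hne e _ he => ?_⟩
  · rw [grps_len] at hq
    rw [grps_getD hq]
    exact (hr q hq).1
  · rw [grps_len] at hq hq'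
    exact hne (((hr q hq).2 e he.1).eq ((hr q' hq').2 e he.2))

theorem sat_of_sel (hN : 0 < N) (hΦ : ∀ φ ∈ Φ, good N φ = true) (hL : Φ.length ≤ 2 ^ L)
    (h : Sel (uni N L) (grps N L Φ)) : ∃ φ ∈ Φ, SAT3 φ := by
  obtain ⟨r, hr, hdis⟩ := h
  rw [grps_len] at hr hdis
  replace hr : ∀ q < N + N + N + (N + 2), r q ∈ grp N L Φ q := by
    intro q hq
    have := hr q hq
    rwa [grps_getD hq] at this
  -- the first group
  have h0 : r 0 = [bl] := by
    have := hr 0 (by omega)
    simpa [grp, pads] using this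
  have hnp : ∀ q < N + N + N + (N + 2), q ≠ 0 → r q ∉ pads := by
    intro q hq hq0 hm
    have hb : r q = [bl] := by simpa [pads] using hm
    exact hdis q hq 0 (by omega) hq0 bl uni_bl (by rw [hb, h0]; simp)
  -- variables
  have hv : ∀ x < N + N + N, r (x + 1) = vt N x 0 ∨ r (x + 1) = vt N x 1 := by
    intro x hx
    have h1 := hr (x + 1) (by omega)
    unfold grp at h1
    rw [if_neg (by omega), if_pos (by omega), List.mem_append] at h1
    rcases h1 with h1 | h1
    · exact absurd h1 (hnp (x + 1) (by omega) (by omega))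
    · simpa using h1
  -- selector
  have hsl : ∃ φ j, (φ, j) ∈ Φ.zipIdx ∧
      r (N + N + N + 1) = (List.range N).flatMap (fun i => idp L i j) := by
    have h1 := hr (N + N + N + 1) (by omega)
    unfold grp at h1
    rw [if_neg (by omega), if_neg (by omega), if_pos rfl, List.mem_append] at h1
    rcases h1 with h1 | h1
    · exact absurd h1 (hnp _ (by omega) (by omega))
    · unfold slc at h1
      rw [List.mem_map] at h1
      obtain ⟨⟨φ, j⟩, hz, he⟩ := h1
      exact ⟨φ, j, hz, he.symm⟩
  obtain ⟨φ, j, hz, hsel⟩ := hsl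
  rw [List.mem_zipIdx_iff_getElem?] at hz
  simp only at hz
  have hjl : j < Φ.length := by
    by_contra hno
    rw [List.getElem?_eq_none (by omega)] at hz
    simp at hz
  have hφ : φ ∈ Φ := List.mem_of_getElem? hz
  have hg := hΦ φ hφ
  unfold good at hg
  rw [Bool.and_eq_true, decide_eq_true_iff, List.all_eq_true] at hg
  refine ⟨φ, hφ, fun x => decide (r (x + 1) = vt N x 0), ?_⟩
  intro c hc
  obtain ⟨i, hi, hic⟩ := List.getElem_of_mem hc
  have hiN : i < N := lt_of_lt_of_le hi hg.1
  -- the clause group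
  have h1 := hr (N + N + N + 2 + i) (by omega)
  unfold grp at h1
  rw [if_neg (by omega), if_neg (by omega), if_neg (by omega), List.mem_append,
    show N + N + N + 2 + i - (N + N + N + 2) = i by omega] at h1
  rcases h1 with h1 | h1
  · exact absurd h1 (hnp _ (by omega) (by omega))
  unfold clg at h1
  rw [List.mem_flatMap] at h1
  obtain ⟨⟨φ', j'⟩, hz', hm⟩ := h1
  rw [List.mem_zipIdx_iff_getElem?] at hz'
  simp only at hz' hm
  have hjl' : j' < Φ.length := by
    by_contra hno
    rw [List.getElem?_eq_none (by omega)] at hz'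
    simp at hz'
  -- the indices agree
  have hsub : ∀ e ∈ idn L i j', e ∈ r (N + N + N + 2 + i) := by
    intro e he
    unfold ch at hm
    cases ho : φ'[i]? with
    | none => rw [ho] at hm; simp only [List.mem_singleton] at hm; rw [hm]; exact he
    | some c' =>
      rw [ho] at hm
      simp only [List.mem_cons, List.not_mem_nil, or_false] at hm
      rcases hm with hm | hm | hm <;> rw [hm] <;> exact List.mem_cons_of_mem _ he
  have hjj : j = j' := by
    apply eq_of_bit (lt_of_lt_of_le hjl hL) (lt_of_lt_of_le hjl' hL)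
    intro b hb
    by_contra hne
    have hb1 := bit_le j b
    have hb2 := bit_le j' b
    refine hdis (N + N + N + 1) (by omega) (N + N + N + 2 + i) (by omega) (by omega)
      (1, bit j b, i, b) (uni_id hb1 hiN hb) ⟨?_, hsub _ ?_⟩
    · rw [hsel, List.mem_flatMap]
      exact ⟨i, by simpa using hiN, List.mem_map.2 ⟨b, by simpa using hb, rfl⟩⟩
    · refine List.mem_map.2 ⟨b, by simpa using hb, ?_⟩
      have : 1 - bit j' b = bit j b := by omega
      rw [this]
  subst hjj
  have hφφ : φ' = φ := by rw [hz] at hz'; exact (Option.some.inj hz').symm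
  subst hφφ
  have hoc : φ'[i]? = some c := by rw [List.getElem?_eq_getElem hi, hic]
  rw [hoc] at hm
  have hcb := hg.2 c hc
  simp only [Bool.and_eq_true, decide_eq_true_iff] at hcb
  -- a chosen literal is true
  have hlit : ∀ l : Lit ℕ, l.2 < N + N + N → litE i l ∈ r (N + N + N + 2 + i) →
      decide (r (l.2 + 1) = vt N l.2 0) = l.1 := by
    intro l hl2 hlm
    have hd := hdis (l.2 + 1) (by omega) (N + N + N + 2 + i) (by omega) (by omega) (litE i l)
      (uni_lit (by split_ifs <;> simp) hl2 hiN)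
    have hnm : litE i l ∉ r (l.2 + 1) := fun hh => hd ⟨hh, hlm⟩
    have hmem : ∀ s, (if l.1 = true then 1 else 0) = s → litE i l ∈ vt N l.2 s := by
      rintro s rfl
      exact List.mem_map.2 ⟨i, by simpa using hiN, rfl⟩
    cases hl1 : l.1 with
    | true =>
      rw [decide_eq_true_iff]
      rcases hv l.2 hl2 with h2 | h2
      · exact h2
      · exact absurd (by rw [h2]; exact hmem 1 (by simp [hl1])) hnm
    | false =>
      rw [decide_eq_false_iff_not]
      intro h2
      exact hnm (by rw [h2]; exact hmem 0 (by simp [hl1]))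
  simp only [ch, List.mem_cons, List.not_mem_nil, or_false] at hm
  rcases hm with hm | hm | hm
  · exact Or.inl (hlit c.1 hcb.1 (by rw [hm]; exact List.mem_cons_self ..))
  · exact Or.inr (Or.inl (hlit c.2.1 hcb.2.1 (by rw [hm]; exact List.mem_cons_self ..)))
  · exact Or.inr (Or.inr (hlit c.2.2 hcb.2.2 (by rw [hm]; exact List.mem_cons_self ..)))

end

end Pool.Agent.H801.Fvs
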