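import Mathlib

/-!
# The covering argument of Fortnow and Santhanam
-/

namespace Pool.Agent.H801.Fvs

/-- Bit strings as positive numbers. -/
def code : List Bool → ℕ
  | [] => 1
  | b :: l => 2 * code l + (if b = true then 1 else 0)

theorem code_pos : ∀ l, 0 < code l
  | [] => Nat.one_pos
  | b :: l => by have := code_pos l; unfold code; omega

theorem code_lt : ∀ l : List Bool, code l < 2 ^ (l.length + 1)
  | [] => by simp [code]
  | b :: l => by
    have := code_lt l
    rw [List.length_cons, pow_succ]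
    unfold code
    split_ifs <;> omega

theorem code_inj : ∀ l l' : List Bool, code l = code l' → l = l'
  | [], [], _ => rfl
  | [], b :: l, h => by
    have := code_pos l
    simp only [code] at h
    split_ifs at h <;> omega
  | b :: l, [], h => by
    have := code_pos l
    simp only [code] at h
    split_ifs at h <;> omega
  | b :: l, b' :: l', h => by
    simp only [code] at h
    have h1 : code l = code l' := by split_ifs at h <;> omega
    have h2 := code_inj l l' h1
    subst h2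
    cases b <;> cases b' <;> simp at h ⊢

/-- There are fewer than `2 ^ (n + 1)` strings of length at most `n`. -/
theorem exists_finset {α : Type} (f : α → List Bool) (hf : Function.Injective f) (P : α → Prop)
    (n : ℕ) : ∃ X : Finset α, X.card < 2 ^ (n + 1) ∧ ∀ a, a ∈ X ↔ (f a).length ≤ n ∧ P a := by
  classical
  have hfin : {a | (f a).length ≤ n ∧ P a}.Finite := by
    apply Set.Finite.subset (Set.Finite.preimage (f := fun a => code (f a))
      (s := {m | m < 2 ^ (n + 1)}) (fun a _ b _ h => hf (code_inj _ _ h)) (Set.finite_lt_nat _))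
    rintro a ⟨ha, _⟩
    show code (f a) < 2 ^ (n + 1)
    exact lt_of_lt_of_le (code_lt _) (Nat.pow_le_pow_right (by norm_num) (by omega))
  refine ⟨hfin.toFinset, ?_, fun a => by simp⟩
  have h1 : hfin.toFinset.card ≤ (Finset.Ioo 0 (2 ^ (n + 1))).card := by
    apply Finset.card_le_card_of_injOn (fun a => code (f a))
    · intro a ha
      have ha' : (f a).length ≤ n ∧ P a := by simpa using ha
      rw [Finset.coe_Ioo]
      exact ⟨code_pos _, lt_of_lt_of_le (code_lt _) (Nat.pow_le_pow_right (by norm_num) (by omega))⟩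
    · intro a _ b _ h
      exact hf (code_inj _ _ h)
  rw [Nat.card_Ioo] at h1
  have : 0 < 2 ^ (n + 1) := by positivity
  omega

/-- One round: some value `z` covers half of a set. -/
theorem half {α β : Type} [DecidableEq α] [DecidableEq β] {t : ℕ} (ht : 0 < t)
    (D : (Fin t → α) → β) (Z : Finset β) (hZ : Z.card ≤ 2 ^ t) (Y : Finset α) (hY : 0 < Y.card)
    (hD : ∀ a : Fin t → α, (∀ i, a i ∈ Y) → D a ∈ Z) :
    ∃ (z : β) (C : Finset α), C ⊆ Y ∧ Y.card ≤ 2 * C.card ∧
      ∀ y ∈ C, ∃ a : Fin t → α, (∀ i, a i ∈ Y) ∧ (∃ i, a i = y) ∧ D a = z := by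
  classical
  let cov : β → Finset α := fun z => Y.filter
    (fun y => ∃ a : Fin t → α, (∀ i, a i ∈ Y) ∧ (∃ i, a i = y) ∧ D a = z)
  by_contra hno
  push Not at hno
  have hsmall : ∀ z, 2 * (cov z).card ≤ Y.card - 1 := by
    intro z
    by_contra hz
    obtain ⟨y, hy, hy'⟩ := hno z (cov z) (Finset.filter_subset _ _) (by omega)
    obtain ⟨a, h1, ⟨i, h2⟩, h3⟩ := (Finset.mem_filter.1 hy).2
    exact hy' a h1 ⟨i, h2⟩ h3
  have hsum : Y.card ^ t ≤ ∑ z ∈ Z, (cov z).card ^ t := by
    have h1 : (Fintype.piFinset (fun _ : Fin t => Y)).card = Y.card ^ t := by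
      rw [Fintype.card_piFinset_const]
    rw [← h1, Finset.card_eq_sum_card_fiberwise (f := D) (t := Z) (fun a ha =>
      hD a (fun i => Fintype.mem_piFinset.1 ha i))]
    refine Finset.sum_le_sum fun z _ => ?_
    have h2 : (Fintype.piFinset (fun _ : Fin t => cov z)).card = (cov z).card ^ t := by
      rw [Fintype.card_piFinset_const]
    rw [← h2]
    apply Finset.card_le_card
    intro a ha
    rw [Finset.mem_filter, Fintype.mem_piFinset] at ha
    rw [Fintype.mem_piFinset]
    intro i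
    exact Finset.mem_filter.2 ⟨ha.1 i, a, ha.1, ⟨i, rfl⟩, ha.2⟩
  have h3 : 2 ^ t * Y.card ^ t ≤ 2 ^ t * (Y.card - 1) ^ t := by
    calc 2 ^ t * Y.card ^ t ≤ 2 ^ t * ∑ z ∈ Z, (cov z).card ^ t := Nat.mul_le_mul_left _ hsum
      _ = ∑ z ∈ Z, (2 * (cov z).card) ^ t := by
        rw [Finset.mul_sum]
        exact Finset.sum_congr rfl fun z _ => (mul_pow _ _ _).symm
      _ ≤ ∑ _z ∈ Z, (Y.card - 1) ^ t := Finset.sum_le_sum fun z _ =>
        Nat.pow_le_pow_left (hsmall z) t
      _ = Z.card * (Y.card - 1) ^ t := by rw [Finset.sum_const, smul_eq_mul]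
      _ ≤ 2 ^ t * (Y.card - 1) ^ t := Nat.mul_le_mul_right _ hZ
  have h4 : (Y.card - 1) ^ t < Y.card ^ t := Nat.pow_lt_pow_left (by omega) (by omega)
  have h5 := Nat.mul_lt_mul_of_pos_left h4 (show 0 < 2 ^ t by positivity)
  omega

/-- All elements are covered by few values. -/
theorem cover {α β : Type} [DecidableEq α] [DecidableEq β] {t : ℕ} (ht : 0 < t)
    (D : (Fin t → α) → β) (Z : Finset β) (hZ : Z.card ≤ 2 ^ t) (X : Finset α)
    (hD : ∀ a : Fin t → α, (∀ i, a i ∈ X) → D a ∈ Z) :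
    ∀ (r : ℕ) (Y : Finset α), Y ⊆ X → Y.card < 2 ^ r → ∃ zs : List β, zs.length ≤ r ∧
      (∀ z ∈ zs, ∃ a : Fin t → α, (∀ i, a i ∈ X) ∧ D a = z) ∧
      ∀ y ∈ Y, ∃ a : Fin t → α, (∀ i, a i ∈ X) ∧ (∃ i, a i = y) ∧ D a ∈ zs := by
  intro r
  induction r with
  | zero =>
    intro Y _ hc
    rw [pow_zero, Nat.lt_one_iff, Finset.card_eq_zero] at hc
    subst hc
    exact ⟨[], by simp, by simp, by simp⟩
  | succ r ih =>
    intro Y hYX hc
    rcases Nat.eq_zero_or_pos Y.card with h0 | hpos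
    · rw [Finset.card_eq_zero] at h0
      subst h0
      exact ⟨[], by simp, by simp, by simp⟩
    obtain ⟨z, C, hCY, hC, hcov⟩ := half ht D Z hZ Y hpos
      (fun a ha => hD a (fun i => hYX (ha i)))
    obtain ⟨zs, h1, h2, h3⟩ := ih (Y \ C) (Finset.sdiff_subset.trans hYX) (by
      have := Finset.card_sdiff_add_card_inter Y C
      rw [Finset.inter_eq_right.2 hCY] at this
      rw [pow_succ] at hc
      omega)
    refine ⟨z :: zs, by simpa using h1, ?_, ?_⟩
    · intro w hw
      rw [List.mem_cons] at hw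
      rcases hw with rfl | hw
      · have hCpos : 0 < C.card := by omega
        obtain ⟨y, hy⟩ := Finset.card_pos.1 hCpos
        obtain ⟨a, ha, _, hDa⟩ := hcov y hy
        exact ⟨a, fun i => hYX (ha i), hDa⟩
      · exact h2 w hw
    · intro y hy
      by_cases hyC : y ∈ C
      · obtain ⟨a, ha, hi, hDa⟩ := hcov y hyC
        exact ⟨a, fun i => hYX (ha i), hi, by rw [hDa]; exact List.mem_cons_self ..⟩
      · obtain ⟨a, ha, hi, hDa⟩ := h3 y (Finset.mem_sdiff.2 ⟨hy, hyC⟩)
        exact ⟨a, ha, hi, List.mem_cons_of_mem _ hDa⟩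

/-- An exponential function exceeds a polynomial. -/
theorem exists_exp (A e : ℕ) : ∃ C : ℕ, e ≤ C ∧ A * (2 * C + 2) ^ e + 1 ≤ 2 ^ C := by
  have h := tendsto_pow_const_div_const_pow_of_one_lt e (show (1 : ℝ) < 2 by norm_num)
  have hpos : (0 : ℝ) < 1 / (A * 4 ^ e + 1) := by positivity
  have h1 := (h.eventually (gt_mem_nhds hpos)).and
    ((Filter.eventually_ge_atTop e).and (Filter.eventually_ge_atTop 1))
  obtain ⟨C, hC, hCe, hC1⟩ := h1.exists
  refine ⟨C, hCe, ?_⟩
  rw [div_lt_div_iff₀ (by positivity) (by positivity)] at hC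
  have h2 : C ^ e * (A * 4 ^ e + 1) < 2 ^ C := by
    have : (C : ℝ) ^ e * (A * 4 ^ e + 1) < 2 ^ C := by linarith
    exact_mod_cast this
  have h3 : (2 * C + 2) ^ e ≤ 4 ^ e * C ^ e := by
    rw [← mul_pow]
    exact Nat.pow_le_pow_left (by omega) e
  have h4 : 1 ≤ C ^ e := Nat.one_le_pow _ _ hC1
  calc A * (2 * C + 2) ^ e + 1 ≤ A * (4 ^ e * C ^ e) + C ^ e :=
        Nat.add_le_add (Nat.mul_le_mul_left _ h3) h4
    _ = C ^ e * (A * 4 ^ e + 1) := by ring
    _ ≤ 2 ^ C := h2.le

theorem poly_bound (P : Polynomial ℕ) (x : ℕ) :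
    P.eval x ≤ P.eval 1 * (x + 1) ^ P.natDegree := by
  rw [Polynomial.eval_eq_sum_range, Polynomial.eval_eq_sum_range, Finset.sum_mul]
  refine Finset.sum_le_sum fun i hi => ?_
  rw [one_pow, mul_one]
  refine Nat.mul_le_mul_left _ ?_
  calc x ^ i ≤ (x + 1) ^ i := Nat.pow_le_pow_left (by omega) i
    _ ≤ (x + 1) ^ P.natDegree := Nat.pow_le_pow_right (by omega) (by
      rw [Finset.mem_range] at hi; omega)

theorem size_mul_le (a b : ℕ) : (a * b).size ≤ a.size + b.size := by
  rw [Nat.size_le, pow_add]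
  exact Nat.mul_lt_mul'' (Nat.lt_size_self a) (Nat.lt_size_self b)

theorem size_pow_le (a k : ℕ) : (a ^ k).size ≤ k * a.size + 1 := by
  induction k with
  | zero => simp
  | succ k ih =>
    rw [pow_succ]
    refine (size_mul_le _ _).trans ?_
    rw [Nat.succ_mul]
    omega

/-- The number of instances combined. -/
theorem exists_count (P : Polynomial ℕ) : ∃ C : ℕ, ∀ N : ℕ,
    P.eval (N + (2 ^ C * (N + 1) ^ C).size) + 1 ≤ 2 ^ C * (N + 1) ^ C := by
  obtain ⟨C, hCe, hC⟩ := exists_exp (P.eval 1 * 2 ^ P.natDegree) P.natDegree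
  refine ⟨C, fun N => ?_⟩
  have h1 : (2 ^ C * (N + 1) ^ C).size ≤ (C + 1) + (C * (N + 1) + 1) := by
    refine (size_mul_le _ _).trans (Nat.add_le_add ?_ ?_)
    · rw [Nat.size_pow]
    · refine (size_pow_le _ _).trans ?_
      have : (N + 1).size ≤ N + 1 := Nat.size_le.2 Nat.lt_two_pow_self
      have := Nat.mul_le_mul_left C this
      omega
  have h2 : N + (2 ^ C * (N + 1) ^ C).size + 1 ≤ 2 * (2 * C + 2) * (N + 1) := by
    nlinarith
  calc P.eval (N + (2 ^ C * (N + 1) ^ C).size) + 1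
      ≤ P.eval 1 * (2 * (2 * C + 2) * (N + 1)) ^ P.natDegree + 1 := by
        refine Nat.add_le_add_right ((poly_bound P _).trans (Nat.mul_le_mul_left _
          (Nat.pow_le_pow_left h2 _))) 1
    _ = P.eval 1 * 2 ^ P.natDegree * (2 * C + 2) ^ P.natDegree * (N + 1) ^ P.natDegree + 1 := by
        rw [mul_pow, mul_pow]; ring
    _ ≤ P.eval 1 * 2 ^ P.natDegree * (2 * C + 2) ^ P.natDegree * (N + 1) ^ C + (N + 1) ^ C := by
        refine Nat.add_le_add (Nat.mul_le_mul_left _ (Nat.pow_le_pow_right (by omega) hCe))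
          (Nat.one_le_pow _ _ (by omega))
    _ = (P.eval 1 * 2 ^ P.natDegree * (2 * C + 2) ^ P.natDegree + 1) * (N + 1) ^ C := by ring
    _ ≤ 2 ^ C * (N + 1) ^ C := Nat.mul_le_mul_right _ hC

end Pool.Agent.H801.Fvs
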