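import Pool.Agent.NPC.Classes
import Pool.Agent.NPC.Enc

/-!
# Fair feedback vertex set: definitions
-/

namespace Pool.Agent.H801.Fvs

open Pool.Agent.NPC

/-- The entry of the adjacency matrix `M` at `a`, `b` (`false` outside the matrix). -/
def ent (M : List (List Bool)) (a b : ℕ) : Bool := (M.getD a []).getD b false

/-- An instance `(G, k, d)` of FAIR FEEDBACK VERTEX SET, the graph being given by its adjacency
matrix. -/
abbrev Inst : Type := List (List Bool) × ℕ × ℕ

/-- The solution size allowed (the parameter). -/
def Inst.k (I : Inst) : ℕ := I.2.1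

/-- The fairness factor. -/
def Inst.d (I : Inst) : ℕ := I.2.2

/-- The first component is the adjacency matrix of a finite simple graph, and the fairness factor
is positive. -/
def WF (I : Inst) : Prop :=
  (∀ r ∈ I.1, r.length = I.1.length) ∧ (∀ a b, ent I.1 a b = ent I.1 b a) ∧
    (∀ a, ent I.1 a a = false) ∧ 0 < I.d

/-- The graph with the adjacency matrix `M`. (If `M` is symmetric with zero diagonal, then `a` and
`b` are adjacent exactly if the entry at `a`, `b` is `true`.) -/
def graph (M : List (List Bool)) : SimpleGraph (Fin M.length) where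
  Adj a b := a ≠ b ∧ (ent M a b = true ∨ ent M b a = true)
  symm := ⟨fun _ _ h => ⟨h.1.symm, h.2.symm⟩⟩
  loopless := ⟨fun _ h => h.1 rfl⟩

open Classical in
/-- `(G, k, d)` is a yes-instance: there is a feedback vertex set of at most `k` vertices with at
most `d` vertices in the neighbourhood of each vertex of the graph. -/
def FFVS (I : Inst) : Prop :=
  ∃ S : Finset (Fin I.1.length), S.card ≤ I.k ∧
    ((graph I.1).induce {v | v ∉ S}).IsAcyclic ∧
    ∀ v, (S.filter (fun w => (graph I.1).Adj v w)).card ≤ I.d

/-- FAIR FEEDBACK VERTEX SET has a polynomial kernel: a polynomial-time algorithm maps every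
instance to an equivalent one of size polynomial in `k`. -/
def PolyKernel : Prop :=
  ∃ (K : List Bool → List Bool) (p : Polynomial ℕ), PolyTime K ∧
    ∀ I : Inst, WF I → ∃ J : Inst, WF J ∧ K (bits I) = bits J ∧ (FFVS J ↔ FFVS I) ∧
      (bits J).length ≤ p.eval I.k

/-- FAIR FEEDBACK VERTEX SET has a polynomial compression: a polynomial-time algorithm maps every
instance to a string of length polynomial in `k`, such that the yes-instances are those mapped to
strings in a certain (arbitrary) set `B`. -/
def PolyCompression : Prop :=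
  ∃ (K : List Bool → List Bool) (B : Set (List Bool)) (p : Polynomial ℕ), PolyTime K ∧
    ∀ I : Inst, WF I → (K (bits I) ∈ B ↔ FFVS I) ∧ (K (bits I)).length ≤ p.eval I.k

/-- The class `NP/poly`: polynomially bounded certificates verified in polynomial time with the help
of an advice string of polynomial length which depends only on the length of the input. -/
def InNPpoly (L : Set (List Bool)) : Prop :=
  ∃ (V : List Bool → List Bool) (adv : ℕ → List Bool) (p : Polynomial ℕ), PolyTime V ∧
    (∀ n, (adv n).length ≤ p.eval n) ∧
    ∀ x, x ∈ L ↔ ∃ w : List Bool, w.length ≤ p.eval x.length ∧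
      V (pairBits (pairBits x (adv x.length)) w) = [true]

theorem PolyKernel.compression (h : PolyKernel) : PolyCompression := by
  obtain ⟨K, p, hK, h⟩ := h
  refine ⟨K, {z | ∃ J : Inst, z = bits J ∧ FFVS J}, p, hK, fun I hI => ?_⟩
  obtain ⟨J, _, hJ, hIJ, hlen⟩ := h I hI
  rw [hJ]
  refine ⟨⟨?_, fun hy => ⟨J, rfl, hIJ.2 hy⟩⟩, hlen⟩
  rintro ⟨J', hJ', hy⟩
  rw [bits_injective hJ'] at hIJ
  exact hIJ.1 hy

end Pool.Agent.H801.Fvs
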