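import Pool.Agent.H801.Fvs.Graph

/-!
# From selections of disjoint sets to fair feedback vertex sets: the equivalence
-/

namespace Pool.Agent.H801.Fvs

open Pool.Agent.NPC SimpleGraph

section

variable {U : List E} {W : List (List (List E))}

theorem card_le_lab (S : Finset (Fin (inst U W).1.length)) (A : Finset E)
    (h : ∀ i ∈ S, lab i ∈ A) : S.card ≤ A.card :=
  Finset.card_le_card_of_injOn lab h (fun _ _ _ _ he => lab_inj he)

/-- The vertices of the solution. -/
def inSol (p : ℕ → ℕ) (x : E) : Prop := x.1 = 0 ∨ (x.1 = 2 ∧ x.2.2.1 = p x.2.1)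

instance (p : ℕ → ℕ) (x : E) : Decidable (inSol p x) := by unfold inSol; infer_instance

theorem ffvs_of_sel (h : Sel U W) : FFVS (inst U W) := by
  classical
  obtain ⟨r, hr, hdis⟩ := h
  -- positions
  have hp : ∀ q, ∃ p, q < W.length → p < (W.getD q []).length ∧ (W.getD q []).getD p [] = r q := by
    intro q
    by_cases hq : q < W.length
    · obtain ⟨p, hp, he⟩ := List.getElem_of_mem (hr q hq)
      exact ⟨p, fun _ => ⟨hp, by rw [List.getD_eq_getElem?_getD, List.getElem?_eq_getElem hp]; simpa using he⟩⟩
    · exact ⟨0, fun h => absurd h hq⟩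
  choose p hp using hp
  refine ⟨Finset.univ.filter (fun i => inSol p (lab i)), ?_, ?_, ?_⟩
  · -- size
    refine (card_le_lab _ ((Finset.range (U.length + U.length)).image (fun v => ((0, v, 0, 0) : E)) ∪
      (Finset.range W.length).image (fun q => ((2, q, p q, 0) : E))) ?_).trans ?_
    · intro i hi
      rw [Finset.mem_filter] at hi
      rw [Finset.mem_union, Finset.mem_image, Finset.mem_image]
      rcases mem_labs.1 (lab_mem i) with ⟨v, hv, hx⟩ | ⟨v, hv, c, hc, hx | hx⟩ | ⟨q, hq, s, hs, hx⟩
      · exact Or.inl ⟨v, by simpa using hv, hx.symm⟩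
      · rw [hx] at hi; simp [inSol] at hi
      · rw [hx] at hi; simp [inSol] at hi
      · rw [hx] at hi
        simp [inSol] at hi
        exact Or.inr ⟨q, by simpa using hq, by rw [hx, hi]⟩
    · refine (Finset.card_union_le _ _).trans ?_
      have h1 := Finset.card_image_le (s := Finset.range (U.length + U.length))
        (f := fun v => ((0, v, 0, 0) : E))
      have h2 := Finset.card_image_le (s := Finset.range W.length)
        (f := fun q => ((2, q, p q, 0) : E))
      rw [Finset.card_range] at h1 h2
      show _ ≤ kk U W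
      unfold kk
      omega
  · -- acyclic
    let ρ : E → ℕ := fun x => if x.1 = 2 then
      (if p x.2.1 < x.2.2.1 then x.2.2.1 - p x.2.1
        else x.2.2.1 + (W.getD x.2.1 []).length - p x.2.1) else 0
    apply acyclic_of_rank _ (fun v => ρ (lab v.1))
    rintro ⟨v, hv⟩ ⟨a, ha⟩ ⟨b, hb⟩ hva hvb hra hrb
    simp only [Set.mem_ofPred_eq, Finset.mem_filter, Finset.mem_univ, true_and] at hv ha hb
    simp only [comap_adj, Function.Embedding.subtype_apply] at hva hvb
    rw [adj_iff] at hva hvb
    apply Subtype.ext
    apply lab_inj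
    show lab a = lab b
    simp only at hra hrb
    rcases mem_labs.1 (lab_mem v) with ⟨v', hv', hx⟩ | ⟨v', hv', c', hc', hx⟩ | ⟨q', hq', s', hs', hx⟩
    · rw [hx] at hv; simp [inSol] at hv
    · rcases mem_labs.1 (lab_mem a) with ⟨va, hva', hxa⟩ | ⟨va, hva', ca, hca, hxa⟩ |
        ⟨qa, hqa, sa, hsa, hxa⟩
      · rw [hxa] at ha; simp [inSol] at ha
      · rcases mem_labs.1 (lab_mem b) with ⟨vb, hvb', hxb⟩ | ⟨vb, hvb', cb, hcb, hxb⟩ |
          ⟨qb, hqb, sb, hsb, hxb⟩
        · rw [hxb] at hb; simp [inSol] at hb
        · unfold adjR adjA at hva hvb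
          rcases hx with hx | hx <;> rcases hxa with hxa | hxa <;> rcases hxb with hxb | hxb <;>
            rw [hx, hxa] at hva <;> rw [hx, hxb] at hvb <;> rw [hxa, hxb] <;> simp at hva hvb ⊢ <;> omega
        · unfold adjR adjA at hvb
          rcases hx with hx | hx <;> rw [hx, hxb] at hvb <;> simp at hvb
      · unfold adjR adjA at hva
        rcases hx with hx | hx <;> rw [hx, hxa] at hva <;> simp at hva
    · rcases mem_labs.1 (lab_mem a) with ⟨va, hva', hxa⟩ | ⟨va, hva', ca, hca, hxa⟩ |
        ⟨qa, hqa, sa, hsa, hxa⟩
      · rw [hxa] at ha; simp [inSol] at ha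
      · unfold adjR adjA at hva
        rcases hxa with hxa | hxa <;> rw [hx, hxa] at hva <;> simp at hva
      · rcases mem_labs.1 (lab_mem b) with ⟨vb, hvb', hxb⟩ | ⟨vb, hvb', cb, hcb, hxb⟩ |
          ⟨qb, hqb, sb, hsb, hxb⟩
        · rw [hxb] at hb; simp [inSol] at hb
        · unfold adjR adjA at hvb
          rcases hxb with hxb | hxb <;> rw [hx, hxb] at hvb <;> simp at hvb
        · unfold adjR adjA at hva hvb
          rw [hx, hxa] at hva
          rw [hx, hxb] at hvb
          rw [hx, hxa] at hra
          rw [hx, hxb] at hrb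
          rw [hx] at hv
          rw [hxa] at ha
          rw [hxb] at hb
          rw [hxa, hxb]
          have hqa' : qa = q' := by
            simp at hva
            rcases hva.2 with h | h <;> [exact h.1.symm; exact h.1]
          have hqb' : qb = q' := by
            simp at hvb
            rcases hvb.2 with h | h <;> [exact h.1.symm; exact h.1]
          subst hqa'
          subst hqb'
          have hpq := (hp _ hq').1
          simp [inSol] at hv ha hb
          simp [ρ] at hra hrb
          simp at hva hvb
          rw [List.getD_eq_getElem?_getD] at hpq hs' hsa hsb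
          simp only [Prod.mk.injEq, true_and, and_true]
          split_ifs at hra hrb <;> omega
  · -- fairness
    intro v
    show _ ≤ U.length + 1
    have hf : ∀ i, i ∈ ((Finset.univ.filter (fun i => inSol p (lab i))).filter
        (fun w => (graph (inst U W).1).Adj v w)) → inSol p (lab i) ∧ adjR U W (lab v) (lab i) := by
      intro i hi
      rw [Finset.mem_filter, Finset.mem_filter, adj_iff] at hi
      exact ⟨hi.1.2, hi.2⟩
    rcases mem_labs.1 (lab_mem v) with ⟨v', hv', hx⟩ | ⟨v', hv', c', hc', hx⟩ | ⟨q', hq', s', hs', hx⟩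
    · by_cases hvu : v' < U.length
      · -- the vertex of an element
        obtain ⟨x, hxx⟩ : ∃ x : E, ∀ q < W.length, U.getD v' (0, 0, 0, 0) ∈ r q →
            ((2, q, p q, 0) : E) = x := by
          by_cases hex : ∃ q < W.length, U.getD v' (0, 0, 0, 0) ∈ r q
          · obtain ⟨q, hq, hqm⟩ := hex
            refine ⟨(2, q, p q, 0), fun q1 hq1 hqm1 => ?_⟩
            by_contra hne
            have hqq : q1 ≠ q := fun h => hne (by rw [h])
            refine hdis q1 hq1 q hq hqq (U.getD v' (0, 0, 0, 0)) ?_ ⟨hqm1, hqm⟩
            rw [List.getD_eq_getElem?_getD, List.getElem?_eq_getElem hvu]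
            exact List.getElem_mem _
          · refine ⟨(0, 0, 0, 0), fun q1 hq1 hqm1 => absurd ⟨q1, hq1, hqm1⟩ hex⟩
        refine (card_le_lab _ ((Finset.Ico U.length (U.length + U.length)).image
          (fun v => ((0, v, 0, 0) : E)) ∪ {x}) ?_).trans ?_
        · intro i hi
          obtain ⟨h1, h2⟩ := hf i hi
          rw [Finset.mem_union, Finset.mem_image, Finset.mem_singleton]
          rw [hx] at h2
          rcases mem_labs.1 (lab_mem i) with ⟨vi, hvi, hxi⟩ | ⟨vi, hvi, ci, hci, hxi | hxi⟩ |
            ⟨qi, hqi, si, hsi, hxi⟩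
          · rw [hxi] at h2
            unfold adjR adjA at h2
            simp at h2
            refine Or.inl ⟨vi, ?_, hxi.symm⟩
            rw [Finset.mem_Ico]
            omega
          · rw [hxi] at h1; simp [inSol] at h1
          · rw [hxi] at h1; simp [inSol] at h1
          · rw [hxi] at h1 h2
            simp [inSol] at h1
            subst h1
            right
            rw [hxi]
            apply hxx qi hqi
            unfold adjR adjA at h2
            simp only [OfNat.zero_ne_ofNat, false_and, and_false, or_false, false_or,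
              OfNat.ofNat_ne_zero, true_and, OfNat.zero_ne_ofNat,
              OfNat.ofNat_ne_one, reduceCtorEq] at h2
            rw [← (hp qi hqi).2]
            simp at h2
            simpa using h2.2
        · refine (Finset.card_union_le _ _).trans ?_
          have h1 := Finset.card_image_le (s := Finset.Ico U.length (U.length + U.length))
            (f := fun v => ((0, v, 0, 0) : E))
          rw [Nat.card_Ico] at h1
          rw [Finset.card_singleton]
          omega
      · refine (card_le_lab _ ((Finset.range U.length).image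
          (fun v => ((0, v, 0, 0) : E))) ?_).trans ?_
        · intro i hi
          obtain ⟨h1, h2⟩ := hf i hi
          rw [Finset.mem_image]
          rw [hx] at h2
          rcases mem_labs.1 (lab_mem i) with ⟨vi, hvi, hxi⟩ | ⟨vi, hvi, ci, hci, hxi | hxi⟩ |
            ⟨qi, hqi, si, hsi, hxi⟩
          · rw [hxi] at h2
            unfold adjR adjA at h2
            simp at h2
            refine ⟨vi, ?_, hxi.symm⟩
            rw [Finset.mem_range]
            omega
          · rw [hxi] at h1; simp [inSol] at h1
          · rw [hxi] at h1; simp [inSol] at h1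
          · rw [hxi] at h2
            unfold adjR adjA at h2
            simp at h2
            omega
        · have h1 := Finset.card_image_le (s := Finset.range U.length)
            (f := fun v => ((0, v, 0, 0) : E))
          rw [Finset.card_range] at h1
          omega
    · refine (card_le_lab _ {((0, v', 0, 0) : E)} ?_).trans (by rw [Finset.card_singleton]; omega)
      intro i hi
      obtain ⟨h1, h2⟩ := hf i hi
      rw [Finset.mem_singleton]
      rcases mem_labs.1 (lab_mem i) with ⟨vi, hvi, hxi⟩ | ⟨vi, hvi, ci, hci, hxi | hxi⟩ |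
        ⟨qi, hqi, si, hsi, hxi⟩
      · unfold adjR adjA at h2
        rcases hx with hx | hx <;> rw [hx, hxi] at h2 <;> simp at h2 <;> rw [hxi, h2]
      · rw [hxi] at h1; simp [inSol] at h1
      · rw [hxi] at h1; simp [inSol] at h1
      · unfold adjR adjA at h2
        rcases hx with hx | hx <;> rw [hx, hxi] at h2 <;> simp at h2
    · refine (card_le_lab _ ((Finset.range U.length).image
          (fun v => ((0, v, 0, 0) : E)) ∪ {((2, q', p q', 0) : E)}) ?_).trans ?_
      · intro i hi
        obtain ⟨h1, h2⟩ := hf i hi
        rw [Finset.mem_union, Finset.mem_image, Finset.mem_singleton]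
        rw [hx] at h2
        rcases mem_labs.1 (lab_mem i) with ⟨vi, hvi, hxi⟩ | ⟨vi, hvi, ci, hci, hxi | hxi⟩ |
          ⟨qi, hqi, si, hsi, hxi⟩
        · rw [hxi] at h2
          unfold adjR adjA at h2
          simp at h2
          refine Or.inl ⟨vi, ?_, hxi.symm⟩
          rw [Finset.mem_range]
          omega
        · rw [hxi] at h1; simp [inSol] at h1
        · rw [hxi] at h1; simp [inSol] at h1
        · rw [hxi] at h1 h2
          simp [inSol] at h1
          subst h1
          right
          unfold adjR adjA at h2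
          simp at h2
          rw [hxi]
          rcases h2.2 with h | h
          · rw [h.1]
          · rw [h.1]
      · refine (Finset.card_union_le _ _).trans ?_
        have h1 := Finset.card_image_le (s := Finset.range U.length)
            (f := fun v => ((0, v, 0, 0) : E))
        rw [Finset.card_range] at h1
        rw [Finset.card_singleton]
        omega

/-- A vertex with a given label (if there is one). -/
noncomputable def ix [Nonempty (Fin (inst U W).1.length)] (x : E) : Fin (inst U W).1.length :=
  Classical.epsilon (fun i => lab i = x)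

theorem lab_ix [Nonempty (Fin (inst U W).1.length)] {x : E} (hx : x ∈ labs U W) :
    lab (ix (U := U) (W := W) x) = x := Classical.epsilon_spec (exists_lab hx)

theorem ix_inj [Nonempty (Fin (inst U W).1.length)] {x y : E} (hx : x ∈ labs U W)
    (hy : y ∈ labs U W) (h : ix (U := U) (W := W) x = ix y) : x = y := by
  rw [← lab_ix hx, ← lab_ix hy, h]

theorem getD_mem {α : Type} {l : List α} {i : ℕ} (h : i < l.length) (d : α) : l.getD i d ∈ l := by
  rw [List.getD_eq_getElem?_getD, List.getElem?_eq_getElem h]
  exact List.getElem_mem _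

theorem sel_of_ffvs (h3 : ∀ g ∈ W, 3 ≤ g.length) (h : FFVS (inst U W)) : Sel U W := by
  classical
  obtain ⟨S, hcard, hacyc, hfair⟩ := h
  change S.card ≤ kk U W at hcard
  by_cases hW : W = []
  · subst hW
    exact ⟨fun _ => [], fun q hq => by simp at hq, fun q hq => by simp at hq⟩
  -- there is a vertex
  have hg : ∀ q < W.length, 3 ≤ (W.getD q []).length := by
    intro q hq
    rw [List.getD_eq_getElem?_getD, List.getElem?_eq_getElem hq]
    exact h3 _ (List.getElem_mem _)
  have hWl : 0 < W.length := List.length_pos_iff.2 hW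
  have hne : Nonempty (Fin (inst U W).1.length) := by
    obtain ⟨i, _⟩ := exists_lab (U := U) (W := W) (x := (2, 0, 0, 0))
      (mem_labs.2 (Or.inr (Or.inr ⟨0, hWl, 0, by have := hg 0 hWl; omega, rfl⟩)))
    exact ⟨i⟩
  have m0 : ∀ v < U.length + U.length, ((0, v, 0, 0) : E) ∈ labs U W := fun v hv =>
    mem_labs.2 (Or.inl ⟨v, hv, rfl⟩)
  have m1 : ∀ v < U.length + U.length, ∀ c < kk U W + 1, ((1, v, c, 0) : E) ∈ labs U W :=
    fun v hv c hc => mem_labs.2 (Or.inr (Or.inl ⟨v, hv, c, hc, Or.inl rfl⟩))
  have m1' : ∀ v < U.length + U.length, ∀ c < kk U W + 1, ((1, v, c, 1) : E) ∈ labs U W :=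
    fun v hv c hc => mem_labs.2 (Or.inr (Or.inl ⟨v, hv, c, hc, Or.inr rfl⟩))
  have m2 : ∀ q < W.length, ∀ r < (W.getD q []).length, ((2, q, r, 0) : E) ∈ labs U W :=
    fun q hq r hr => mem_labs.2 (Or.inr (Or.inr ⟨q, hq, r, hr, rfl⟩))
  -- the forced vertices
  have hforce : ∀ v < U.length + U.length, ix (U := U) (W := W) (0, v, 0, 0) ∈ S := by
    intro v hv
    by_contra hvS
    have hex : ∀ c < kk U W + 1, ix (U := U) (W := W) (1, v, c, 0) ∈ S ∨
        ix (U := U) (W := W) (1, v, c, 1) ∈ S := by
      intro c hc
      by_contra hno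
      rw [not_or] at hno
      let a : ℕ → {x : Fin (inst U W).1.length | x ∉ S} := fun i =>
        if i = 0 then ⟨_, hvS⟩ else if i = 1 then ⟨_, hno.1⟩ else ⟨_, hno.2⟩
      have ha0 : a 0 = ⟨_, hvS⟩ := rfl
      have ha1 : a 1 = ⟨_, hno.1⟩ := rfl
      have ha2 : a 2 = ⟨_, hno.2⟩ := rfl
      have e01 : (0, v, 0, 0) ≠ ((1, v, c, 0) : E) := by simp
      have e02 : (0, v, 0, 0) ≠ ((1, v, c, 1) : E) := by simp
      have e12 : (1, v, c, 0) ≠ ((1, v, c, 1) : E) := by simp
      refine no_cycle hacyc (le_refl 3) a ?_ ?_ ?_
      · intro i j hi hj hij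
        have hi' : i = 0 ∨ i = 1 ∨ i = 2 := by omega
        have hj' : j = 0 ∨ j = 1 ∨ j = 2 := by omega
        rcases hi' with rfl | rfl | rfl <;> rcases hj' with rfl | rfl | rfl <;>
          simp only [ha0, ha1, ha2, Subtype.mk.injEq] at hij ⊢
        · exact absurd (ix_inj (m0 v hv) (m1 v hv c hc) hij) e01
        · exact absurd (ix_inj (m0 v hv) (m1' v hv c hc) hij) e02
        · exact absurd (ix_inj (m1 v hv c hc) (m0 v hv) hij) e01.symm
        · exact absurd (ix_inj (m1 v hv c hc) (m1' v hv c hc) hij) e12
        · exact absurd (ix_inj (m1' v hv c hc) (m0 v hv) hij) e02.symm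
        · exact absurd (ix_inj (m1' v hv c hc) (m1 v hv c hc) hij) e12.symm
      · intro i hi
        have hi' : i = 0 ∨ i = 1 := by omega
        rcases hi' with rfl | rfl
        · rw [ha0, show (0 + 1) = 1 from rfl, ha1]
          simp only [comap_adj, Function.Embedding.subtype_apply]
          rw [adj_iff, lab_ix (m0 v hv), lab_ix (m1 v hv c hc)]
          exact ⟨e01, Or.inl (Or.inr (Or.inl ⟨rfl, rfl, rfl⟩))⟩
        · rw [ha1, show (1 + 1) = 2 from rfl, ha2]
          simp only [comap_adj, Function.Embedding.subtype_apply]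
          rw [adj_iff, lab_ix (m1 v hv c hc), lab_ix (m1' v hv c hc)]
          exact ⟨e12, Or.inl (Or.inr (Or.inr (Or.inl ⟨rfl, rfl, rfl, rfl, rfl, rfl⟩)))⟩
      · rw [show 3 - 1 = 2 from rfl, ha2, ha0]
        simp only [comap_adj, Function.Embedding.subtype_apply]
        rw [adj_iff, lab_ix (m0 v hv), lab_ix (m1' v hv c hc)]
        exact ⟨e02.symm, Or.inr (Or.inr (Or.inl ⟨rfl, rfl, rfl⟩))⟩
    have hh : ∀ c, ∃ h : ℕ, h < 2 ∧ (c < kk U W + 1 → ix (U := U) (W := W) (1, v, c, h) ∈ S) := by
      intro c
      by_cases hc : c < kk U W + 1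
      · rcases hex c hc with h | h
        · exact ⟨0, by omega, fun _ => h⟩
        · exact ⟨1, by omega, fun _ => h⟩
      · exact ⟨0, by omega, fun h => absurd h hc⟩
    choose h hh2 hhS using hh
    have hmem : ∀ c < kk U W + 1, ((1, v, c, h c) : E) ∈ labs U W := by
      intro c hc
      have : h c = 0 ∨ h c = 1 := by have := hh2 c; omega
      rcases this with h' | h' <;> rw [h']
      · exact m1 v hv c hc
      · exact m1' v hv c hc
    have hle := Finset.card_le_card_of_injOn (s := Finset.range (kk U W + 1)) (t := S)
      (fun c => ix (U := U) (W := W) (1, v, c, h c))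
      (fun c hc => hhS c (Finset.mem_range.1 hc)) (by
        intro c hc c' hc' he
        have := ix_inj (hmem c (Finset.mem_range.1 hc)) (hmem c' (Finset.mem_range.1 hc')) he
        simp only [Prod.mk.injEq, true_and] at this
        exact this.1)
    rw [Finset.card_range] at hle
    omega
  -- a chosen vertex in each cycle
  have hpick : ∀ q, ∃ r, q < W.length → r < (W.getD q []).length ∧
      ix (U := U) (W := W) (2, q, r, 0) ∈ S := by
    intro q
    by_cases hq : q < W.length
    · by_contra hno
      push Not at hno
      have hno' : ∀ r < (W.getD q []).length, ix (U := U) (W := W) (2, q, r, 0) ∉ S := by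
        intro r hr
        exact (hno r).2 hr
      have hlen := hg q hq
      have hpos : 0 < (W.getD q []).length := by omega
      let a : ℕ → {x : Fin (inst U W).1.length | x ∉ S} := fun i =>
        if hi : i < (W.getD q []).length then ⟨_, hno' i hi⟩ else ⟨_, hno' 0 hpos⟩
      have ha : ∀ i (hi : i < (W.getD q []).length), a i = ⟨_, hno' i hi⟩ := fun i hi => dif_pos hi
      refine no_cycle hacyc hlen a ?_ ?_ ?_
      · intro i j hi hj hij
        rw [ha i hi, ha j hj, Subtype.mk.injEq] at hij
        have := ix_inj (m2 q hq i hi) (m2 q hq j hj) hij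
        simpa using this
      · intro i hi
        rw [ha i (by omega), ha (i + 1) hi]
        simp only [comap_adj, Function.Embedding.subtype_apply]
        rw [adj_iff, lab_ix (m2 q hq i (by omega)), lab_ix (m2 q hq (i + 1) hi)]
        exact ⟨by simp, Or.inl (Or.inr (Or.inr (Or.inr (Or.inl ⟨rfl, rfl, rfl, Or.inl rfl⟩))))⟩
      · rw [ha _ (by omega : (W.getD q []).length - 1 < (W.getD q []).length), ha 0 hpos]
        simp only [comap_adj, Function.Embedding.subtype_apply]
        rw [adj_iff, lab_ix (m2 q hq _ (by omega)), lab_ix (m2 q hq 0 hpos)]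
        refine ⟨fun he => by simp only [Prod.mk.injEq] at he; omega,
          Or.inr (Or.inr (Or.inr (Or.inr (Or.inl ⟨rfl, rfl, rfl, Or.inr ⟨rfl, ?_⟩⟩))))⟩
        show (W.getD q []).length - 1 + 1 = (W.getD q []).length
        omega
    · exact ⟨0, fun h => absurd h hq⟩
  choose p hp using hpick
  refine ⟨fun q => (W.getD q []).getD (p q) [], fun q hq => ?_, ?_⟩
  · exact getD_mem (hp q hq).1 _
  · intro q hq q' hq' hne' e he hee
    obtain ⟨v, hv, rfl⟩ := List.getElem_of_mem he
    have hvU : U.getD v (0, 0, 0, 0) = U[v] := by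
      rw [List.getD_eq_getElem?_getD, List.getElem?_eq_getElem hv]; rfl
    have hf := hfair (ix (U := U) (W := W) (0, v, 0, 0))
    change _ ≤ U.length + 1 at hf
    -- the neighbours in the solution
    let f : ℕ → Fin (inst U W).1.length := fun j =>
      if j < U.length then ix (U := U) (W := W) (0, U.length + j, 0, 0)
      else if j = U.length then ix (U := U) (W := W) (2, q, p q, 0)
      else ix (U := U) (W := W) (2, q', p q', 0)
    have hfm : ∀ j < U.length + 2, f j ∈ S.filter
        (fun w => (graph (inst U W).1).Adj (ix (U := U) (W := W) (0, v, 0, 0)) w) := by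
      intro j hj
      rw [Finset.mem_filter, adj_iff, lab_ix (m0 v (by omega))]
      by_cases h1 : j < U.length
      · simp only [f, if_pos h1]
        refine ⟨hforce _ (by omega), ?_⟩
        rw [lab_ix (m0 _ (by omega))]
        refine ⟨by simp; omega, Or.inl (Or.inl ⟨rfl, rfl, hv, ?_⟩)⟩
        show U.length ≤ U.length + j
        omega
      · by_cases h2 : j = U.length
        · simp only [f, if_neg h1, if_pos h2]
          refine ⟨(hp q hq).2, ?_⟩
          rw [lab_ix (m2 q hq _ (hp q hq).1)]
          refine ⟨by simp, Or.inl (Or.inr (Or.inr (Or.inr (Or.inr ⟨rfl, rfl, hv, ?_⟩))))⟩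
          show U.getD v (0, 0, 0, 0) ∈ _
          rw [hvU]
          exact hee.1
        · simp only [f, if_neg h1, if_neg h2]
          refine ⟨(hp q' hq').2, ?_⟩
          rw [lab_ix (m2 q' hq' _ (hp q' hq').1)]
          refine ⟨by simp, Or.inl (Or.inr (Or.inr (Or.inr (Or.inr ⟨rfl, rfl, hv, ?_⟩))))⟩
          show U.getD v (0, 0, 0, 0) ∈ _
          rw [hvU]
          exact hee.2
    have hle := Finset.card_le_card_of_injOn (s := Finset.range (U.length + 2)) f
      (fun j hj => hfm j (Finset.mem_range.1 hj)) (by
        intro i hi j hj he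
        have hi := Finset.mem_range.1 hi
        have hj := Finset.mem_range.1 hj
        have hl : ∀ j < U.length + 2, lab (f j) = if j < U.length then (0, U.length + j, 0, 0)
            else if j = U.length then (2, q, p q, 0) else (2, q', p q', 0) := by
          intro j hj
          by_cases h1 : j < U.length
          · simp only [f, if_pos h1]
            exact lab_ix (m0 _ (by omega))
          · by_cases h2 : j = U.length
            · simp only [f, if_neg h1, if_pos h2]
              exact lab_ix (m2 q hq _ (hp q hq).1)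
            · simp only [f, if_neg h1, if_neg h2]
              exact lab_ix (m2 q' hq' _ (hp q' hq').1)
        have h1 := hl i hi
        have h2 := hl j hj
        rw [he, h2] at h1
        split_ifs at h1 <;> simp only [Prod.mk.injEq] at h1 <;> omega)
    rw [Finset.card_range] at hle
    omega

/-- The reduction is correct. -/
theorem inst_iff (h3 : ∀ g ∈ W, 3 ≤ g.length) : FFVS (inst U W) ↔ Sel U W :=
  ⟨sel_of_ffvs h3, ffvs_of_sel⟩

end

end Pool.Agent.H801.Fvs
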