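import Pool.Agent.H801.Fvs.Defs
import Pool.Agent.H801.Fvs.Acyc

/-!
# From selections of disjoint sets to fair feedback vertex sets
-/

namespace Pool.Agent.H801.Fvs

open Pool.Agent.NPC SimpleGraph

/-- Labels of vertices, and elements of the universe. -/
abbrev E : Type := ℕ × ℕ × ℕ × ℕ

/-- One set can be selected from each group of `W` such that no element of `U` is in two of them. -/
def Sel (U : List E) (W : List (List (List E))) : Prop :=
  ∃ r : ℕ → List E, (∀ q < W.length, r q ∈ W.getD q []) ∧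
    ∀ q < W.length, ∀ q' < W.length, q ≠ q' → ∀ e ∈ U, ¬ (e ∈ r q ∧ e ∈ r q')

/-- The solution size. -/
def kk (U : List E) (W : List (List (List E))) : ℕ := U.length + U.length + W.length

/-- The vertices: two vertices per element, triangles forcing them into the solution, and a cycle for
each group. -/
def labs (U : List E) (W : List (List (List E))) : List E :=
  (List.range (U.length + U.length)).map (fun v => ((0, v, 0, 0) : E)) ++
    ((List.range (U.length + U.length)).flatMap (fun v =>
      (List.range (kk U W + 1)).flatMap (fun c => [((1, v, c, 0) : E), (1, v, c, 1)])) ++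
    (List.range W.length).flatMap (fun q =>
      (List.range (W.getD q []).length).map (fun r => ((2, q, r, 0) : E))))

/-- Adjacency, in one direction. -/
def adjA (U : List E) (W : List (List (List E))) (x y : E) : Prop :=
  (x.1 = 0 ∧ y.1 = 0 ∧ x.2.1 < U.length ∧ U.length ≤ y.2.1) ∨
  (x.1 = 0 ∧ y.1 = 1 ∧ x.2.1 = y.2.1) ∨
  (x.1 = 1 ∧ y.1 = 1 ∧ x.2.1 = y.2.1 ∧ x.2.2.1 = y.2.2.1 ∧ x.2.2.2 = 0 ∧ y.2.2.2 = 1) ∨
  (x.1 = 2 ∧ y.1 = 2 ∧ x.2.1 = y.2.1 ∧ (x.2.2.1 + 1 = y.2.2.1 ∨
    (x.2.2.1 = 0 ∧ y.2.2.1 + 1 = (W.getD x.2.1 []).length))) ∨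
  (x.1 = 0 ∧ y.1 = 2 ∧ x.2.1 < U.length ∧
    U.getD x.2.1 (0, 0, 0, 0) ∈ (W.getD y.2.1 []).getD y.2.2.1 [])

instance (U : List E) (W : List (List (List E))) (x y : E) : Decidable (adjA U W x y) := by
  unfold adjA; infer_instance

/-- Adjacency. -/
def adjR (U : List E) (W : List (List (List E))) (x y : E) : Prop :=
  ¬ x = y ∧ (adjA U W x y ∨ adjA U W y x)

instance (U : List E) (W : List (List (List E))) (x y : E) : Decidable (adjR U W x y) := by
  unfold adjR; infer_instance

/-- The instance of FAIR FEEDBACK VERTEX SET. -/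
def inst (U : List E) (W : List (List (List E))) : Inst :=
  ((labs U W).map (fun x => (labs U W).map (fun y => decide (adjR U W x y))), kk U W, U.length + 1)

theorem adjR_symm {U : List E} {W : List (List (List E))} {x y : E} (h : adjR U W x y) :
    adjR U W y x := ⟨fun e => h.1 e.symm, h.2.symm⟩

theorem mem_labs {U : List E} {W : List (List (List E))} {x : E} : x ∈ labs U W ↔
    (∃ v < U.length + U.length, x = (0, v, 0, 0)) ∨
    (∃ v < U.length + U.length, ∃ c < kk U W + 1, x = (1, v, c, 0) ∨ x = (1, v, c, 1)) ∨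
    (∃ q < W.length, ∃ r < (W.getD q []).length, x = (2, q, r, 0)) := by
  unfold labs
  simp only [List.mem_append, List.mem_map, List.mem_range, List.mem_flatMap, List.mem_cons,
    List.not_mem_nil, or_false]
  constructor
  · rintro (⟨v, hv, rfl⟩ | ⟨v, hv, c, hc, h⟩ | ⟨q, hq, r, hr, rfl⟩)
    · exact Or.inl ⟨v, hv, rfl⟩
    · exact Or.inr (Or.inl ⟨v, hv, c, hc, h⟩)
    · exact Or.inr (Or.inr ⟨q, hq, r, hr, rfl⟩)
  · rintro (⟨v, hv, rfl⟩ | ⟨v, hv, c, hc, h⟩ | ⟨q, hq, r, hr, rfl⟩)
    · exact Or.inl ⟨v, hv, rfl⟩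
    · exact Or.inr (Or.inl ⟨v, hv, c, hc, h⟩)
    · exact Or.inr (Or.inr ⟨q, hq, r, hr, rfl⟩)

theorem labs_nodup (U : List E) (W : List (List (List E))) : (labs U W).Nodup := by
  unfold labs
  rw [List.nodup_append', List.nodup_append', List.nodup_flatMap, List.nodup_flatMap]
  refine ⟨List.Nodup.map (fun a b h => ?_) List.nodup_range, ⟨⟨fun v _ => ?_, ?_⟩,
    ⟨fun q _ => List.Nodup.map (fun a b h => ?_) List.nodup_range, ?_⟩, ?_⟩, ?_⟩
  · simpa using h
  · rw [List.nodup_flatMap]
    refine ⟨fun c _ => by simp, ?_⟩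
    refine List.Pairwise.imp ?_ List.nodup_range
    intro a b hab x hx hx'
    simp only [List.mem_cons, List.not_mem_nil, or_false] at hx hx'
    rcases hx with rfl | rfl <;> simp [hab] at hx'
  · refine List.Pairwise.imp ?_ List.nodup_range
    intro a b hab x hx hx'
    simp only [List.mem_flatMap, List.mem_cons, List.not_mem_nil, or_false] at hx hx'
    obtain ⟨c, _, hx⟩ := hx
    obtain ⟨c', _, hx'⟩ := hx'
    rcases hx with rfl | rfl <;> simp [hab] at hx'
  · simpa using h
  · refine List.Pairwise.imp ?_ List.nodup_range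
    intro a b hab x hx hx'
    simp only [List.mem_map] at hx hx'
    obtain ⟨c, _, rfl⟩ := hx
    obtain ⟨c', _, hx'⟩ := hx'
    simp only [Prod.mk.injEq, true_and] at hx'
    exact hab hx'.1.symm
  · intro x hx hx'
    simp only [List.mem_flatMap, List.mem_cons, List.not_mem_nil, or_false, List.mem_map] at hx hx'
    obtain ⟨_, _, _, _, hx⟩ := hx
    obtain ⟨_, _, _, _, rfl⟩ := hx'
    simp at hx
  · intro x hx hx'
    simp only [List.mem_append, List.mem_flatMap, List.mem_cons, List.not_mem_nil, or_false,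
      List.mem_map] at hx hx'
    obtain ⟨_, _, rfl⟩ := hx
    rcases hx' with ⟨_, _, _, _, hx⟩ | ⟨_, _, _, _, hx⟩ <;> simp at hx

section

variable {U : List E} {W : List (List (List E))}

theorem inst_len : (inst U W).1.length = (labs U W).length := by simp [inst]

/-- The label of a vertex. -/
def lab (i : Fin (inst U W).1.length) : E := (labs U W)[i.1]'(lt_of_lt_of_eq i.2 inst_len)

theorem lab_mem (i : Fin (inst U W).1.length) : lab i ∈ labs U W := List.getElem_mem _

theorem lab_inj : Function.Injective (lab (U := U) (W := W)) := by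
  intro i j h
  unfold lab at h
  exact Fin.ext ((List.Nodup.getElem_inj_iff (labs_nodup U W)).1 h)

theorem exists_lab {x : E} (hx : x ∈ labs U W) : ∃ i : Fin (inst U W).1.length, lab i = x := by
  obtain ⟨i, hi, rfl⟩ := List.getElem_of_mem hx
  exact ⟨⟨i, by rwa [inst_len]⟩, rfl⟩

theorem ent_inst {a b : ℕ} (ha : a < (labs U W).length) (hb : b < (labs U W).length) :
    ent (inst U W).1 a b = decide (adjR U W (labs U W)[a] (labs U W)[b]) := by
  simp [ent, inst, List.getD_eq_getElem?_getD, ha, hb]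

theorem ent_inst_none {a b : ℕ} (h : ¬ (a < (labs U W).length ∧ b < (labs U W).length)) :
    ent (inst U W).1 a b = false := by
  unfold ent inst
  by_cases ha : a < (labs U W).length
  · have hb : (labs U W).length ≤ b := by
      by_contra hb
      exact h ⟨ha, by omega⟩
    simp [List.getD_eq_getElem?_getD, ha, hb]
  · simp [List.getD_eq_getElem?_getD, not_lt.1 ha]

theorem wf_inst : WF (inst U W) := by
  refine ⟨?_, ?_, ?_, ?_⟩
  · intro r hr
    simp only [inst, List.mem_map] at hr
    obtain ⟨x, _, rfl⟩ := hr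
    simp [inst]
  · intro a b
    by_cases h : a < (labs U W).length ∧ b < (labs U W).length
    · rw [ent_inst h.1 h.2, ent_inst h.2 h.1]
      exact decide_eq_decide.2 ⟨adjR_symm, adjR_symm⟩
    · rw [ent_inst_none h, ent_inst_none (fun h' => h ⟨h'.2, h'.1⟩)]
  · intro a
    by_cases h : a < (labs U W).length ∧ a < (labs U W).length
    · rw [ent_inst h.1 h.2]
      exact decide_eq_false (fun h' => h'.1 rfl)
    · exact ent_inst_none h
  · exact Nat.succ_pos _

theorem adj_iff (i j : Fin (inst U W).1.length) :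
    (graph (inst U W).1).Adj i j ↔ adjR U W (lab i) (lab j) := by
  have hi : i.1 < (labs U W).length := lt_of_lt_of_eq i.2 inst_len
  have hj : j.1 < (labs U W).length := lt_of_lt_of_eq j.2 inst_len
  have h1 : ent (inst U W).1 i.1 j.1 = decide (adjR U W (lab i) (lab j)) := ent_inst hi hj
  have h2 : ent (inst U W).1 j.1 i.1 = decide (adjR U W (lab j) (lab i)) := ent_inst hj hi
  show (i ≠ j ∧ (ent (inst U W).1 i.1 j.1 = true ∨ ent (inst U W).1 j.1 i.1 = true)) ↔ _
  rw [h1, h2, decide_eq_true_iff, decide_eq_true_iff]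
  constructor
  · rintro ⟨_, h | h⟩
    · exact h
    · exact adjR_symm h
  · intro h
    exact ⟨fun e => h.1 (by rw [e]), Or.inl h⟩

end

end Pool.Agent.H801.Fvs
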