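import Pool.Agent.NPC.Dec

/-!
# From encoded lists of booleans to raw bit strings
-/

namespace Pool.Agent.H801.Fvs

open Pool.Agent.NPC

/-- the loop body of the decoder -/
def rawBody : Cmd ℕ :=
  Cmd.cases 0 Cmd.skip (Cmd.pop 0) (Cmd.seq (Cmd.pop 0) (Cmd.cases 0 Cmd.skip
    (Cmd.seq (Cmd.pop 0) (Cmd.push 1 false))
    (Cmd.seq (Cmd.pop 0) (Cmd.seq (Cmd.pop 0) (Cmd.seq (Cmd.pop 0) (Cmd.push 1 true))))))

/-- From encoded lists of booleans to raw bit strings. -/
theorem PC.rawOut : PC (bits : List Bool → List Bool) (fun x : List Bool => x) (fun x => x) := by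
  refine ⟨Cmd.seq (Cmd.loop 0 rawBody) (mv 1 0),
    Polynomial.C 20 * Polynomial.X + Polynomial.C 20, fun x => ?_⟩
  rw [inp_eq_st, inp_eq_st]
  have h1 : ∀ (y z : List Bool), Runs (Cmd.loop 0 rawBody)
      (st (T.ofList (y.map T.ofBool)).enc z []) (st [] (y.reverse ++ z) []) (11 * y.length + 5) := by
    intro y
    induction y with
    | nil =>
      intro z
      have hb : Runs rawBody (st (T.ofList (([] : List Bool).map T.ofBool)).enc z [])
          (st [] z []) 2 := by
        refine (Runs.casesFalse (l := []) (by simp [T.ofList, T.enc]) (Runs.pop _ 0)).conv rfl ?_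
          (by simp)
        simp [T.ofList, T.enc]
      exact (Runs.loopCons (by simp [T.ofList, T.enc]) hb (Runs.loopNil (by simp))).conv rfl
        (by simp) (by simp)
    | cons b y ih =>
      intro z
      have ih' := ih (b :: z)
      have hb : Runs rawBody (st (T.ofList ((b :: y).map T.ofBool)).enc z [])
          (st (T.ofList (y.map T.ofBool)).enc (b :: z) []) 10 := by
        cases b
        · refine (Runs.casesTrue (l := false :: (T.ofList (y.map T.ofBool)).enc)
            (by simp [T.ofList, T.ofBool, T.enc])
            ((Runs.pop _ 0).seq (Runs.casesFalse (l := (T.ofList (y.map T.ofBool)).enc)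
              (by simp [T.ofList, T.ofBool, T.enc])
              ((Runs.pop _ 0).seq (Runs.push _ 1 false))))).conv rfl ?_ (by simp)
          simp [T.ofList, T.ofBool, T.enc]
        · refine (Runs.casesTrue (l := true :: false :: false :: (T.ofList (y.map T.ofBool)).enc)
            (by simp [T.ofList, T.ofBool, T.enc])
            ((Runs.pop _ 0).seq (Runs.casesTrue
              (l := false :: false :: (T.ofList (y.map T.ofBool)).enc)
              (by simp [T.ofList, T.ofBool, T.enc])
              ((Runs.pop _ 0).seq ((Runs.pop _ 0).seq ((Runs.pop _ 0).seq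
                (Runs.push _ 1 true))))))).conv rfl ?_ (by simp)
          simp [T.ofList, T.ofBool, T.enc]
      refine (Runs.loopCons (by simp [T.ofList, T.enc]) hb ih').conv rfl ?_ ?_
      · simp
      · simp; omega
  have h2 := mv_runs (i := 1) (j := 0) (by decide) x.reverse (st [] x.reverse []) (st x [] [])
    (by simp) (by simp)
  have h3 := h1 x []
  rw [List.append_nil] at h3
  refine (h3.seq h2).conv rfl rfl ?_
  have hlen : x.length ≤ (bits x).length := by
    have := length_lt_sz x
    rw [bits_length]
    omega
  simp only [List.length_reverse, Polynomial.eval_add, Polynomial.eval_mul, Polynomial.eval_C,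
    Polynomial.eval_X]
  omega

/-- A function computed from raw bit strings is computed from encoded ones. -/
theorem poly_of_raw {β : Type} [TEnc β] {f : List Bool → β}
    (hf : PC (fun x : List Bool => x) (bits : β → List Bool) f) : NPC.Poly f :=
  PC.comp (g := f) (f := fun x => x) hf PC.rawOut

end Pool.Agent.H801.Fvs
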