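import Pool.Agent.H801.Fvs.Time
import Pool.Agent.H801.Fvs.Raw
import Pool.Agent.H801.Fvs.Cover
import Pool.Agent.NPC.Sat2

/-!
# A polynomial compression of FAIR FEEDBACK VERTEX SET puts `coNP` into `NP/poly`
-/

namespace Pool.Agent.H801.Fvs

open Pool.Agent.NPC

/-- A polynomial-time function on bit strings, applied to the code of a polynomial-time computable
object. -/
theorem poly_app' {α β : Type} [TEnc α] [TEnc β] {F : List Bool → List Bool} (hF : PolyTime F)
    {f : α → β} (hf : NPC.Poly f) : NPC.Poly (fun a => F (bits (f a))) := by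
  have h0 : PC (bits : α → List Bool) (fun x : List Bool => x) (fun a => bits (f a)) := by
    obtain ⟨c, p, h⟩ := hf
    exact ⟨c, p, h⟩
  have h1 : PC (fun x : List Bool => x) (fun x : List Bool => x) F :=
    H642R2.TMSim.polyTime_toPC hF
  have h2 : PC (fun x : List Bool => x) (bits : List Bool → List Bool) F :=
    PC.comp (g := fun x => x) (f := F) PC.rawIn h1
  exact PC.comp (g := F) (f := fun a => bits (f a)) h2 h0

theorem good_of_bounded {φ : F3} {N : ℕ} (hb : Bounded3 φ) (hN : φ.length ≤ N) :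
    good N φ = true := by
  unfold good
  rw [Bool.and_eq_true, decide_eq_true_iff, List.all_eq_true]
  refine ⟨hN, fun c hc => ?_⟩
  obtain ⟨h1, h2, h3⟩ := hb c hc
  simp only [Bool.and_eq_true, decide_eq_true_iff]
  omega

theorem exists_advice {K : List Bool → List Bool} {B : Set (List Bool)} {p : Polynomial ℕ}
    (h : ∀ I : Inst, WF I → (K (bits I) ∈ B ↔ FFVS I) ∧ (K (bits I)).length ≤ p.eval I.k) :
    ∃ C : ℕ, ∀ N : ℕ, 0 < N → ∃ zs : List (List Bool), zs.length ≤ N + 1 ∧
      (∀ z ∈ zs, z ∉ B ∧ z.length ≤ 2 ^ C * (N + 1) ^ C) ∧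
      ∀ φ : F3, (bits φ).length ≤ N → ¬ (good N φ = true ∧ SAT3 φ) →
        ∃ Φ : List F3, Φ.length = 2 ^ C * (N + 1) ^ C ∧ (∀ ψ ∈ Φ, (bits ψ).length ≤ N) ∧ φ ∈ Φ ∧
          K (bits (cmb N Φ)) ∈ zs := by
  classical
  obtain ⟨C, hC⟩ := exists_count (p.comp (Polynomial.C 24 * (Polynomial.X + Polynomial.C 1) ^ 2))
  refine ⟨C, fun N hN => ?_⟩
  set t := 2 ^ C * (N + 1) ^ C with ht
  have htp : 0 < t := by positivity
  have hC' := hC N
  rw [← ht] at hC'
  simp only [Polynomial.eval_comp, Polynomial.eval_mul, Polynomial.eval_C, Polynomial.eval_pow,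
    Polynomial.eval_add, Polynomial.eval_X] at hC'
  let D : (Fin t → F3) → List Bool := fun a => K (bits (cmb N (List.ofFn a)))
  have hlen : ∀ a : Fin t → F3, (D a).length + 1 ≤ t := by
    intro a
    refine le_trans (Nat.add_le_add_right ?_ 1) hC'
    refine ((h _ (wf_cmb N (List.ofFn a))).2).trans (eval_mono p ?_)
    rw [k_cmb, List.length_ofFn, Nat.size_eq_bits_len]
    nlinarith [Nat.zero_le N, Nat.zero_le t.size, Nat.zero_le (N * t.size),
      Nat.zero_le (t.size * t.size)]
  obtain ⟨X, hXc, hX⟩ := exists_finset (bits : F3 → List Bool) bits_injective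
    (fun φ => ¬ (good N φ = true ∧ SAT3 φ)) N
  obtain ⟨Z, hZc, hZ⟩ := exists_finset (fun z : List Bool => z) (fun _ _ h => h) (fun _ => True)
    (t - 1)
  rw [Nat.sub_add_cancel htp] at hZc
  obtain ⟨zs, h1, h2, h3⟩ := cover htp D Z hZc.le X (fun a _ => (hZ _).2 ⟨by
    have := hlen a; omega, trivial⟩) (N + 1) X (Finset.Subset.refl _) hXc
  refine ⟨zs, h1, fun z hz => ?_, fun φ hφ hno => ?_⟩
  · obtain ⟨a, ha, rfl⟩ := h2 z hz
    refine ⟨fun hB => ?_, by have := hlen a; omega⟩
    have hy := ((h _ (wf_cmb N (List.ofFn a))).1).1 hB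
    rw [cmb_iff hN] at hy
    obtain ⟨ψ, hψ, hg⟩ := hy
    rw [List.mem_ofFn] at hψ
    obtain ⟨i, rfl⟩ := hψ
    exact ((hX _).1 (ha i)).2 hg
  · obtain ⟨a, ha, ⟨i, hi⟩, hDa⟩ := h3 φ ((hX φ).2 ⟨hφ, hno⟩)
    refine ⟨List.ofFn a, List.length_ofFn, fun ψ hψ => ?_, ?_, hDa⟩
    · rw [List.mem_ofFn] at hψ
      obtain ⟨i, rfl⟩ := hψ
      exact ((hX _).1 (ha i)).1
    · rw [List.mem_ofFn]
      exact ⟨i, hi⟩

/-- the type of advice -/
abbrev Adv : Type := List Unit × List (List Bool)

/-- the verifier, after decoding -/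
def ver (K : List Bool → List Bool) (f : List Bool → F3) (x : List Bool) (A : Adv)
    (Φ : List F3) : Bool :=
  decide (f x ∈ Φ) && decide (K (bits (cmb A.1.length Φ)) ∈ A.2)

/-- the verifier -/
def gv (K : List Bool → List Bool) (f : List Bool → F3) (y : List Bool) : Bool :=
  match unbits Adv (unpair (unpair y).1).2 with
  | none => false
  | some A => match unbits (List F3) (unpair y).2 with
    | none => false
    | some Φ => ver K f (unpair (unpair y).1).1 A Φ

theorem poly_gv {K : List Bool → List Bool} (hK : PolyTime K) {f : List Bool → F3}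
    (hf : NPC.Poly f) : NPC.Poly (gv K f) := by
  have hu : NPC.Poly (fun y : List Bool => unpair y) := poly_unpair
  have hxa : NPC.Poly (fun y : List Bool => unpair (unpair y).1) := poly_unpair.comp hu.fst
  have hA : NPC.Poly (fun y : List Bool => unbits Adv (unpair (unpair y).1).2) :=
    poly_unbits.comp hxa.snd
  have hW : NPC.Poly (fun y : List Bool => unbits (List F3) (unpair y).2) :=
    poly_unbits.comp hu.snd
  -- the inner test
  have hA1 : UPoly (fun z : (List Bool × Adv) × List F3 => z.1.2.1.length) :=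
    UPoly.length (NPC.Poly.fst (NPC.Poly.snd (NPC.Poly.fst NPC.Poly.id)))
  have hver : NPC.Poly (fun z : (List Bool × Adv) × List F3 =>
      ver K f (unpair (unpair z.1.1).1).1 z.1.2 z.2) := by
    unfold ver
    refine NPC.Poly.and ((NPC.Poly.decide_mem (hf.comp (f := fun z : (List Bool × Adv) × List F3 =>
      (unpair (unpair z.1.1).1).1) (hxa.fst.comp (NPC.Poly.fst (NPC.Poly.fst NPC.Poly.id))))
      (NPC.Poly.snd NPC.Poly.id)).congr fun z => decide_eq_decide.2 Iff.rfl)
      ((NPC.Poly.decide_mem (poly_app' hK (poly_cmb hA1 (NPC.Poly.snd NPC.Poly.id)))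
      (NPC.Poly.snd (NPC.Poly.snd (NPC.Poly.fst NPC.Poly.id)))).congr
        fun z => decide_eq_decide.2 Iff.rfl)
  have hin : NPC.Poly (fun z : List Bool × Adv => match unbits (List F3) (unpair z.1).2 with
      | none => false
      | some Φ => ver K f (unpair (unpair z.1).1).1 z.2 Φ) := by
    refine (NPC.Poly.optCases (o := fun z : List Bool × Adv => unbits (List F3) (unpair z.1).2)
      (g := fun _ => false) (h := fun z Φ => ver K f (unpair (unpair z.1).1).1 z.2 Φ)
      (hW.comp (NPC.Poly.fst NPC.Poly.id)) (NPC.Poly.const false) hver).congr fun z => ?_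
    cases unbits (List F3) (unpair z.1).2 <;> rfl
  refine (NPC.Poly.optCases (o := fun y : List Bool => unbits Adv (unpair (unpair y).1).2)
    (g := fun _ => false) (h := fun y A => match unbits (List F3) (unpair y).2 with
      | none => false
      | some Φ => ver K f (unpair (unpair y).1).1 A Φ) hA (NPC.Poly.const false) hin).congr
    fun y => ?_
  unfold gv
  cases unbits Adv (unpair (unpair y).1).2 <;> rfl

theorem gv_pair {K : List Bool → List Bool} {f : List Bool → F3} (x w : List Bool) (A : Adv) :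
    gv K f (pairBits (pairBits x (bits A)) w) = true ↔
      ∃ Φ : List F3, bits Φ = w ∧ f x ∈ Φ ∧ K (bits (cmb A.1.length Φ)) ∈ A.2 := by
  unfold gv
  rw [unpair_pairBits]
  simp only
  rw [unpair_pairBits]
  simp only
  rw [unbits_bits]
  simp only
  cases h : unbits (List F3) w with
  | none =>
    constructor
    · intro h'; simp at h'
    · rintro ⟨Φ, rfl, _⟩
      rw [unbits_bits] at h
      simp at h
  | some Φ =>
    have hw := bits_of_unbits h
    simp only
    unfold ver
    rw [Bool.and_eq_true, decide_eq_true_iff, decide_eq_true_iff]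
    constructor
    · rintro ⟨h1, h2⟩; exact ⟨Φ, hw, h1, h2⟩
    · rintro ⟨Φ', hΦ', h1, h2⟩
      have : Φ' = Φ := bits_injective (hΦ'.trans hw.symm)
      subst this
      exact ⟨h1, h2⟩

theorem main (h : PolyCompression) : ∀ L : Set (List Bool), InCoNP L → InNPpoly L := by
  intro L hL
  obtain ⟨K, B, p, hK, h⟩ := h
  obtain ⟨C, hadv⟩ := exists_advice h
  obtain ⟨f, hf, hfp, hfL⟩ := hardPr_SAT3b Lᶜ hL
  obtain ⟨q, hq⟩ := hf.length_le
  -- the size parameter
  let qN : Polynomial ℕ := q + Polynomial.C 1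
  have hqN : ∀ n, qN.eval n = q.eval n + 1 := fun n => by simp [qN]
  have hN : ∀ n, 0 < qN.eval n := fun n => by rw [hqN]; omega
  choose zs hz1 hz2 hz3 using hadv
  let tP : Polynomial ℕ := Polynomial.C (2 ^ C) * (qN + Polynomial.C 1) ^ C
  have htP : ∀ n, tP.eval n = 2 ^ C * (qN.eval n + 1) ^ C := fun n => by
    simp only [tP, Polynomial.eval_mul, Polynomial.eval_C, Polynomial.eval_pow,
      Polynomial.eval_add]
  let adv : ℕ → Adv := fun n => (List.replicate (qN.eval n) (), zs (qN.eval n) (hN n))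
  let P : Polynomial ℕ := (tP * (qN + Polynomial.C 1) + Polynomial.C 1) +
    (Polynomial.C 1 + (qN * Polynomial.C 2 + Polynomial.C 1) +
      ((qN + Polynomial.C 1) * (Polynomial.C 4 * tP + Polynomial.C 2) + Polynomial.C 1))
  have hP : ∀ n, P.eval n = (tP.eval n * (qN.eval n + 1) + 1) + (1 + (qN.eval n * 2 + 1) +
      ((qN.eval n + 1) * (4 * tP.eval n + 2) + 1)) := fun n => by
    simp only [P, Polynomial.eval_mul, Polynomial.eval_C, Polynomial.eval_add]
  refine ⟨fun y => [gv K f y], fun n => bits (adv n), P,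
    polyTime_of_poly (poly_gv hK (poly_of_raw hf)), fun n => ?_, fun x => ?_⟩
  · -- the size of the advice
    have h1 : sz (List.replicate (qN.eval n) ()) ≤ qN.eval n * 2 + 1 := by
      have := sz_le_length_mul (List.replicate (qN.eval n) ()) 1 (fun a _ => by simp)
      rwa [List.length_replicate] at this
    have h2 : sz (zs (qN.eval n) (hN n)) ≤ (qN.eval n + 1) * (4 * tP.eval n + 2) + 1 := by
      refine (sz_le_length_mul _ (4 * tP.eval n + 1) (fun z hz => ?_)).trans ?_
      · refine (sz_listBool_le z).trans ?_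
        have := (hz2 _ (hN n) z hz).2
        rw [htP]
        omega
      · exact Nat.add_le_add_right (Nat.mul_le_mul_right (4 * tP.eval n + 2) (hz1 _ (hN n))) 1
    rw [hP, bits_length]
    show sz (adv n) ≤ _
    have h3 : sz (adv n) = 1 + sz (List.replicate (qN.eval n) ()) + sz (zs (qN.eval n) (hN n)) := by
      simp only [adv, sz_pair]
      omega
    rw [h3]
    have : 0 < tP.eval n * (qN.eval n + 1) + 1 := by omega
    omega
  · have hfx : (bits (f x)).length ≤ q.eval x.length := hq x
    have hlenN : (f x).length ≤ qN.eval x.length := by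
      rw [hqN]
      rw [bits_length] at hfx
      have := length_lt_sz (f x)
      omega
    have hgood : good (qN.eval x.length) (f x) = true := good_of_bounded (hfp x).2.1 hlenN
    have hA1 : (adv x.length).1.length = qN.eval x.length := by simp [adv]
    simp only [List.cons.injEq, and_true, gv_pair, hA1]
    constructor
    · intro hx
      have hns : ¬ SAT3 (f x) := fun hs => (hfL x).2 hs hx
      obtain ⟨Φ, hΦ1, hΦ2, hΦ3, hΦ4⟩ := hz3 (qN.eval x.length) (hN _) (f x)
        (by rw [hqN]; omega) (fun hh => hns hh.2)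
      refine ⟨bits Φ, ?_, Φ, rfl, hΦ3, hΦ4⟩
      rw [bits_length]
      refine (sz_le_length_mul Φ (qN.eval x.length) (fun ψ hψ => ?_)).trans ?_
      · have := hΦ2 ψ hψ
        rwa [bits_length] at this
      · rw [hΦ1, hP, htP]
        omega
    · rintro ⟨w, _, Φ, _, hΦ, hz⟩
      by_contra hx
      have hs : SAT3 (f x) := (hfL x).1 hx
      have hB := (hz2 _ (hN x.length) _ hz).1
      apply hB
      rw [(h _ (wf_cmb _ _)).1, cmb_iff (hN _)]
      exact ⟨f x, hΦ, hgood, hs⟩

end Pool.Agent.H801.Fvs
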