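import Pool.Agent.H801.Fvs.Comp
import Pool.Agent.H801.Fvs.Equiv
import Pool.Agent.NPC.Dec

/-!
# The composition is computed in polynomial time
-/

namespace Pool.Agent.H801.Fvs

open Pool.Agent.NPC

section

variable {α : Type} [TEnc α]

theorem poly_mk4 {a b c d : α → ℕ} (ha : NPC.Poly a) (hb : NPC.Poly b) (hc : NPC.Poly c)
    (hd : NPC.Poly d) : NPC.Poly (fun x => ((a x, b x, c x, d x) : E)) :=
  NPC.Poly.pair ha (NPC.Poly.pair hb (NPC.Poly.pair hc hd))

theorem poly_bit {j b : α → ℕ} (hj : NPC.Poly j) (hb : NPC.Poly b) :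
    NPC.Poly (fun a => bit (j a) (b a)) :=
  NPC.Poly.ite (NPC.Poly.decide_bool (NPC.Poly.getD (NPC.Poly.natBits hj) hb (NPC.Poly.const false)))
    (NPC.Poly.const 1) (NPC.Poly.const 0)

theorem poly_good {N : α → ℕ} {φ : α → F3} (hN : NPC.Poly N) (hφ : NPC.Poly φ) :
    NPC.Poly (fun a => good (N a) (φ a)) := by
  unfold good
  have h3 : NPC.Poly (fun p : α × Cl => N p.1 + N p.1 + N p.1) :=
    (NPC.Poly.add (NPC.Poly.add hN hN) hN).comp (NPC.Poly.fst NPC.Poly.id)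
  have hc : NPC.Poly (fun p : α × Cl => p.2) := NPC.Poly.snd NPC.Poly.id
  refine NPC.Poly.and (NPC.Poly.decide_le (NPC.Poly.length hφ) hN)
    (NPC.Poly.all (p := fun a c => decide (c.1.2 < N a + N a + N a) &&
    (decide (c.2.1.2 < N a + N a + N a) && decide (c.2.2.2 < N a + N a + N a))) hφ ?_)
  exact NPC.Poly.and (NPC.Poly.decide_lt hc.fst.snd h3)
    (NPC.Poly.and (NPC.Poly.decide_lt hc.snd.fst.snd h3) (NPC.Poly.decide_lt hc.snd.snd.snd h3))

theorem poly_uni {N L : α → ℕ} (hN : UPoly N) (hL : UPoly L) :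
    NPC.Poly (fun a => uni (N a) (L a)) := by
  unfold uni
  refine NPC.Poly.cons (NPC.Poly.const _) (NPC.Poly.append
    (NPC.Poly.flatMap (F := fun a x => (List.range (N a)).flatMap (fun i =>
      [((0, 0, x, i) : E), (0, 1, x, i)])) (UPoly.range (UPoly.add (UPoly.add hN hN) hN)) ?_)
    (NPC.Poly.flatMap (F := fun a i => (List.range (L a)).flatMap (fun b =>
      [((1, 0, i, b) : E), (1, 1, i, b)])) (UPoly.range hN) ?_))
  · have hN' : UPoly (fun p : α × ℕ => N p.1) := hN.comp (NPC.Poly.fst NPC.Poly.id)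
    refine NPC.Poly.flatMap (F := fun (p : α × ℕ) i => [((0, 0, p.2, i) : E), (0, 1, p.2, i)])
      (UPoly.range hN') ?_
    have h1 : NPC.Poly (fun z : (α × ℕ) × ℕ => z.1.2) := NPC.Poly.snd (NPC.Poly.fst NPC.Poly.id)
    have h2 : NPC.Poly (fun z : (α × ℕ) × ℕ => z.2) := NPC.Poly.snd NPC.Poly.id
    exact NPC.Poly.cons (poly_mk4 (NPC.Poly.const 0) (NPC.Poly.const 0) h1 h2)
      (NPC.Poly.cons (poly_mk4 (NPC.Poly.const 0) (NPC.Poly.const 1) h1 h2) (NPC.Poly.const _))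
  · have hL' : UPoly (fun p : α × ℕ => L p.1) := hL.comp (NPC.Poly.fst NPC.Poly.id)
    refine NPC.Poly.flatMap (F := fun (p : α × ℕ) b => [((1, 0, p.2, b) : E), (1, 1, p.2, b)])
      (UPoly.range hL') ?_
    have h1 : NPC.Poly (fun z : (α × ℕ) × ℕ => z.1.2) := NPC.Poly.snd (NPC.Poly.fst NPC.Poly.id)
    have h2 : NPC.Poly (fun z : (α × ℕ) × ℕ => z.2) := NPC.Poly.snd NPC.Poly.id
    exact NPC.Poly.cons (poly_mk4 (NPC.Poly.const 1) (NPC.Poly.const 0) h1 h2)
      (NPC.Poly.cons (poly_mk4 (NPC.Poly.const 1) (NPC.Poly.const 1) h1 h2) (NPC.Poly.const _))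

theorem poly_idp {L i j : α → ℕ} (hL : UPoly L) (hi : NPC.Poly i) (hj : NPC.Poly j) :
    NPC.Poly (fun a => idp (L a) (i a) (j a)) := by
  unfold idp
  refine NPC.Poly.map (F := fun a b => ((1, bit (j a) b, i a, b) : E)) (UPoly.range hL) ?_
  exact poly_mk4 (NPC.Poly.const 1) (poly_bit (hj.comp (NPC.Poly.fst NPC.Poly.id))
    (NPC.Poly.snd NPC.Poly.id)) (hi.comp (NPC.Poly.fst NPC.Poly.id)) (NPC.Poly.snd NPC.Poly.id)

theorem poly_idn {L i j : α → ℕ} (hL : UPoly L) (hi : NPC.Poly i) (hj : NPC.Poly j) :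
    NPC.Poly (fun a => idn (L a) (i a) (j a)) := by
  unfold idn
  refine NPC.Poly.map (F := fun a b => ((1, 1 - bit (j a) b, i a, b) : E)) (UPoly.range hL) ?_
  exact poly_mk4 (NPC.Poly.const 1) (NPC.Poly.sub (NPC.Poly.const 1)
    (poly_bit (hj.comp (NPC.Poly.fst NPC.Poly.id)) (NPC.Poly.snd NPC.Poly.id)))
    (hi.comp (NPC.Poly.fst NPC.Poly.id)) (NPC.Poly.snd NPC.Poly.id)

theorem poly_vt {N x : α → ℕ} (s : ℕ) (hN : UPoly N) (hx : NPC.Poly x) :
    NPC.Poly (fun a => vt (N a) (x a) s) := by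
  unfold vt
  refine NPC.Poly.map (F := fun a i => ((0, s, x a, i) : E)) (UPoly.range hN) ?_
  exact poly_mk4 (NPC.Poly.const 0) (NPC.Poly.const s) (hx.comp (NPC.Poly.fst NPC.Poly.id))
    (NPC.Poly.snd NPC.Poly.id)

theorem poly_slc {N L : α → ℕ} {Φ : α → List F3} (hN : UPoly N) (hL : UPoly L)
    (hΦ : NPC.Poly Φ) : NPC.Poly (fun a => slc (N a) (L a) (Φ a)) := by
  unfold slc
  refine NPC.Poly.map (F := fun a (g : F3 × ℕ) => (List.range (N a)).flatMap
    (fun i => idp (L a) i g.2)) (NPC.Poly.zipIdx hΦ) ?_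
  refine NPC.Poly.flatMap (F := fun (z : α × (F3 × ℕ)) i => idp (L z.1) i z.2.2)
    (UPoly.range (hN.comp (NPC.Poly.fst NPC.Poly.id))) ?_
  exact poly_idp (hL.comp (NPC.Poly.fst (NPC.Poly.fst NPC.Poly.id))) (NPC.Poly.snd NPC.Poly.id)
    (NPC.Poly.snd (NPC.Poly.snd (NPC.Poly.fst NPC.Poly.id)))

theorem poly_litE {i : α → ℕ} {l : α → Lit ℕ} (hi : NPC.Poly i) (hl : NPC.Poly l) :
    NPC.Poly (fun a => litE (i a) (l a)) :=
  poly_mk4 (NPC.Poly.const 0) (NPC.Poly.ite (NPC.Poly.decide_bool hl.fst) (NPC.Poly.const 1)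
    (NPC.Poly.const 0)) hl.snd hi

theorem poly_ch {L i j : α → ℕ} {o : α → Option Cl} (hL : UPoly L) (hi : NPC.Poly i)
    (hj : NPC.Poly j) (ho : NPC.Poly o) : NPC.Poly (fun a => ch (L a) (i a) (j a) (o a)) := by
  have hn := poly_idn hL hi hj
  have hn' : NPC.Poly (fun p : α × Cl => idn (L p.1) (i p.1) (j p.1)) :=
    hn.comp (NPC.Poly.fst NPC.Poly.id)
  have hi' : NPC.Poly (fun p : α × Cl => i p.1) := hi.comp (NPC.Poly.fst NPC.Poly.id)
  have hc : NPC.Poly (fun p : α × Cl => p.2) := NPC.Poly.snd NPC.Poly.id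
  refine (NPC.Poly.optCases (g := fun a => [idn (L a) (i a) (j a)])
    (h := fun a c => [litE (i a) c.1 :: idn (L a) (i a) (j a),
      litE (i a) c.2.1 :: idn (L a) (i a) (j a), litE (i a) c.2.2 :: idn (L a) (i a) (j a)]) ho
    (NPC.Poly.cons hn (NPC.Poly.const _)) ?_).congr fun a => ?_
  · exact NPC.Poly.cons (NPC.Poly.cons (poly_litE hi' hc.fst) hn')
      (NPC.Poly.cons (NPC.Poly.cons (poly_litE hi' hc.snd.fst) hn')
      (NPC.Poly.cons (NPC.Poly.cons (poly_litE hi' hc.snd.snd) hn') (NPC.Poly.const _)))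
  · cases o a <;> rfl

theorem poly_clg {L i : α → ℕ} {Φ : α → List F3} (hL : UPoly L) (hi : NPC.Poly i)
    (hΦ : NPC.Poly Φ) : NPC.Poly (fun a => clg (L a) (i a) (Φ a)) := by
  unfold clg
  refine NPC.Poly.flatMap (F := fun a (g : F3 × ℕ) => ch (L a) (i a) g.2 g.1[i a]?)
    (NPC.Poly.zipIdx hΦ) ?_
  have hi' : NPC.Poly (fun p : α × (F3 × ℕ) => i p.1) := hi.comp (NPC.Poly.fst NPC.Poly.id)
  exact poly_ch (hL.comp (NPC.Poly.fst NPC.Poly.id)) hi' (NPC.Poly.snd (NPC.Poly.snd NPC.Poly.id))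
    (NPC.Poly.getElem? (NPC.Poly.fst (NPC.Poly.snd NPC.Poly.id)) hi')

theorem poly_grp {N L q : α → ℕ} {Φ : α → List F3} (hN : UPoly N) (hL : UPoly L)
    (hΦ : NPC.Poly Φ) (hq : NPC.Poly q) : NPC.Poly (fun a => grp (N a) (L a) (Φ a) (q a)) := by
  unfold grp
  have hN' := hN.toPoly
  have h3 : NPC.Poly (fun a => N a + N a + N a) := NPC.Poly.add (NPC.Poly.add hN' hN') hN'
  have hp : NPC.Poly (fun _ : α => pads) := NPC.Poly.const _
  have hq1 : NPC.Poly (fun a => q a - 1) := NPC.Poly.sub hq (NPC.Poly.const 1)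
  refine NPC.Poly.ite (NPC.Poly.decide_eq hq (NPC.Poly.const 0)) hp
    (NPC.Poly.ite (NPC.Poly.decide_le hq h3) (NPC.Poly.append hp
      (NPC.Poly.cons (poly_vt 0 hN hq1) (NPC.Poly.cons (poly_vt 1 hN hq1) (NPC.Poly.const _))))
    (NPC.Poly.ite (NPC.Poly.decide_eq hq (NPC.Poly.add h3 (NPC.Poly.const 1)))
      (NPC.Poly.append hp (poly_slc hN hL hΦ)) (NPC.Poly.append hp (poly_clg hL ?_ hΦ))))
  exact NPC.Poly.sub hq (NPC.Poly.add h3 (NPC.Poly.const 2))

theorem poly_grps {N L : α → ℕ} {Φ : α → List F3} (hN : UPoly N) (hL : UPoly L)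
    (hΦ : NPC.Poly Φ) : NPC.Poly (fun a => grps (N a) (L a) (Φ a)) := by
  unfold grps
  refine NPC.Poly.map (F := fun a q => grp (N a) (L a) (Φ a) q) (UPoly.range (UPoly.add
    (UPoly.add (UPoly.add hN hN) hN) (UPoly.add hN (UPoly.const 2)))) ?_
  exact poly_grp (hN.comp (NPC.Poly.fst NPC.Poly.id)) (hL.comp (NPC.Poly.fst NPC.Poly.id))
    (hΦ.comp (NPC.Poly.fst NPC.Poly.id)) (NPC.Poly.snd NPC.Poly.id)

end

/-- the type of the selection problem -/
abbrev SelI : Type := List E × List (List (List E))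

theorem upoly_kk : UPoly (fun z : SelI => kk z.1 z.2) :=
  UPoly.add (UPoly.add (UPoly.length (NPC.Poly.fst NPC.Poly.id))
    (UPoly.length (NPC.Poly.fst NPC.Poly.id))) (UPoly.length (NPC.Poly.snd NPC.Poly.id))

theorem poly_labs : NPC.Poly (fun z : SelI => labs z.1 z.2) := by
  unfold labs
  have hU : UPoly (fun z : SelI => z.1.length) := UPoly.length (NPC.Poly.fst NPC.Poly.id)
  have h2 := UPoly.range (UPoly.add hU hU)
  refine NPC.Poly.append (NPC.Poly.map (F := fun (_ : SelI) v => ((0, v, 0, 0) : E)) h2 ?_)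
    (NPC.Poly.append (NPC.Poly.flatMap (F := fun (z : SelI) v => (List.range (kk z.1 z.2 + 1)).flatMap
      (fun c => [((1, v, c, 0) : E), (1, v, c, 1)])) h2 ?_)
    (NPC.Poly.flatMap (F := fun (z : SelI) q => (List.range (z.2.getD q []).length).map
      (fun r => ((2, q, r, 0) : E))) (UPoly.range (UPoly.length (NPC.Poly.snd NPC.Poly.id))) ?_))
  · exact poly_mk4 (NPC.Poly.const 0) (NPC.Poly.snd NPC.Poly.id) (NPC.Poly.const 0) (NPC.Poly.const 0)
  · refine NPC.Poly.flatMap (F := fun (p : SelI × ℕ) c => [((1, p.2, c, 0) : E), (1, p.2, c, 1)])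
      (UPoly.range (UPoly.add (upoly_kk.comp (NPC.Poly.fst NPC.Poly.id)) (UPoly.const 1))) ?_
    have h1 : NPC.Poly (fun z : (SelI × ℕ) × ℕ => z.1.2) := NPC.Poly.snd (NPC.Poly.fst NPC.Poly.id)
    have h2 : NPC.Poly (fun z : (SelI × ℕ) × ℕ => z.2) := NPC.Poly.snd NPC.Poly.id
    exact NPC.Poly.cons (poly_mk4 (NPC.Poly.const 1) h1 h2 (NPC.Poly.const 0))
      (NPC.Poly.cons (poly_mk4 (NPC.Poly.const 1) h1 h2 (NPC.Poly.const 1)) (NPC.Poly.const _))
  · have hg : NPC.Poly (fun p : SelI × ℕ => p.1.2.getD p.2 []) :=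
      NPC.Poly.getD (NPC.Poly.snd (NPC.Poly.fst NPC.Poly.id)) (NPC.Poly.snd NPC.Poly.id)
        (NPC.Poly.const [])
    refine NPC.Poly.map (F := fun (p : SelI × ℕ) r => ((2, p.2, r, 0) : E))
      (UPoly.range (UPoly.length hg)) ?_
    exact poly_mk4 (NPC.Poly.const 2) (NPC.Poly.snd (NPC.Poly.fst NPC.Poly.id))
      (NPC.Poly.snd NPC.Poly.id) (NPC.Poly.const 0)

theorem poly_adjA {β : Type} [TEnc β] {z : β → SelI} {x y : β → E} (hz : NPC.Poly z)
    (hx : NPC.Poly x) (hy : NPC.Poly y) :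
    NPC.Poly (fun b => decide (adjA (z b).1 (z b).2 (x b) (y b))) := by
  unfold adjA
  have hU : NPC.Poly (fun b => (z b).1) := hz.fst
  have hUl : NPC.Poly (fun b => (z b).1.length) := NPC.Poly.length hU
  have hW : NPC.Poly (fun b => (z b).2) := hz.snd
  have c0 : NPC.Poly (fun _ : β => 0) := NPC.Poly.const 0
  have c1 : NPC.Poly (fun _ : β => 1) := NPC.Poly.const 1
  have c2 : NPC.Poly (fun _ : β => 2) := NPC.Poly.const 2
  have hWx : NPC.Poly (fun b => (z b).2.getD (x b).2.1 []) :=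
    NPC.Poly.getD hW hx.snd.fst (NPC.Poly.const [])
  have hWy : NPC.Poly (fun b => (z b).2.getD (y b).2.1 []) :=
    NPC.Poly.getD hW hy.snd.fst (NPC.Poly.const [])
  refine NPC.Poly.decide_or (NPC.Poly.decide_and (NPC.Poly.decide_eq hx.fst c0)
    (NPC.Poly.decide_and (NPC.Poly.decide_eq hy.fst c0) (NPC.Poly.decide_and
      (NPC.Poly.decide_lt hx.snd.fst hUl) (NPC.Poly.decide_le hUl hy.snd.fst)))) ?_
  refine NPC.Poly.decide_or (NPC.Poly.decide_and (NPC.Poly.decide_eq hx.fst c0)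
    (NPC.Poly.decide_and (NPC.Poly.decide_eq hy.fst c1) (NPC.Poly.decide_eq hx.snd.fst hy.snd.fst))) ?_
  refine NPC.Poly.decide_or (NPC.Poly.decide_and (NPC.Poly.decide_eq hx.fst c1)
    (NPC.Poly.decide_and (NPC.Poly.decide_eq hy.fst c1) (NPC.Poly.decide_and
      (NPC.Poly.decide_eq hx.snd.fst hy.snd.fst) (NPC.Poly.decide_and
      (NPC.Poly.decide_eq hx.snd.snd.fst hy.snd.snd.fst) (NPC.Poly.decide_and
      (NPC.Poly.decide_eq hx.snd.snd.snd c0) (NPC.Poly.decide_eq hy.snd.snd.snd c1)))))) ?_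
  refine NPC.Poly.decide_or (NPC.Poly.decide_and (NPC.Poly.decide_eq hx.fst c2)
    (NPC.Poly.decide_and (NPC.Poly.decide_eq hy.fst c2) (NPC.Poly.decide_and
      (NPC.Poly.decide_eq hx.snd.fst hy.snd.fst) (NPC.Poly.decide_or
      (NPC.Poly.decide_eq (NPC.Poly.add hx.snd.snd.fst c1) hy.snd.snd.fst)
      (NPC.Poly.decide_and (NPC.Poly.decide_eq hx.snd.snd.fst c0)
        (NPC.Poly.decide_eq (NPC.Poly.add hy.snd.snd.fst c1) (NPC.Poly.length hWx))))))) ?_
  refine NPC.Poly.decide_and (NPC.Poly.decide_eq hx.fst c0)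
    (NPC.Poly.decide_and (NPC.Poly.decide_eq hy.fst c2) (NPC.Poly.decide_and
      (NPC.Poly.decide_lt hx.snd.fst hUl) ((NPC.Poly.decide_mem
      (NPC.Poly.getD hU hx.snd.fst (NPC.Poly.const (0, 0, 0, 0)))
      (NPC.Poly.getD hWy hy.snd.snd.fst (NPC.Poly.const []))).congr
        fun b => decide_eq_decide.2 Iff.rfl)))

theorem poly_adjR {β : Type} [TEnc β] {z : β → SelI} {x y : β → E} (hz : NPC.Poly z)
    (hx : NPC.Poly x) (hy : NPC.Poly y) :
    NPC.Poly (fun b => decide (adjR (z b).1 (z b).2 (x b) (y b))) := by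
  unfold adjR
  exact NPC.Poly.decide_and (NPC.Poly.decide_not (NPC.Poly.decide_eq hx hy))
    (NPC.Poly.decide_or (poly_adjA hz hx hy) (poly_adjA hz hy hx))

theorem poly_inst : NPC.Poly (fun z : SelI => inst z.1 z.2) := by
  unfold inst
  refine NPC.Poly.pair (NPC.Poly.map (F := fun (z : SelI) x => (labs z.1 z.2).map
    (fun y => decide (adjR z.1 z.2 x y))) poly_labs ?_) (NPC.Poly.pair upoly_kk.toPoly
    (NPC.Poly.add (NPC.Poly.length (NPC.Poly.fst NPC.Poly.id)) (NPC.Poly.const 1)))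
  refine NPC.Poly.map (F := fun (p : SelI × E) y => decide (adjR p.1.1 p.1.2 p.2 y))
    (poly_labs.comp (NPC.Poly.fst NPC.Poly.id)) ?_
  exact poly_adjR (NPC.Poly.fst (NPC.Poly.fst NPC.Poly.id)) (NPC.Poly.snd (NPC.Poly.fst NPC.Poly.id))
    (NPC.Poly.snd NPC.Poly.id)

/-- The composition: one instance for the disjunction of many formulas. -/
def cmb (N : ℕ) (Φ : List F3) : Inst :=
  inst (uni N Φ.length.bits.length) (grps N Φ.length.bits.length (Φ.filter (good N)))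

theorem poly_cmb {α : Type} [TEnc α] {N : α → ℕ} {Φ : α → List F3} (hN : UPoly N)
    (hΦ : NPC.Poly Φ) : NPC.Poly (fun a => cmb (N a) (Φ a)) := by
  unfold cmb
  have hL : UPoly (fun a => (Φ a).length.bits.length) :=
    UPoly.length (NPC.Poly.natBits (NPC.Poly.length hΦ))
  refine NPC.Poly.comp (g := fun z : SelI => inst z.1 z.2)
    (f := fun a => (uni (N a) (Φ a).length.bits.length,
      grps (N a) (Φ a).length.bits.length ((Φ a).filter (good (N a))))) poly_inst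
    (NPC.Poly.pair (poly_uni hN hL) (poly_grps hN hL ?_))
  exact NPC.Poly.filter (p := fun a φ => good (N a) φ) hΦ
    (poly_good (hN.toPoly.comp (NPC.Poly.fst NPC.Poly.id)) (NPC.Poly.snd NPC.Poly.id))

theorem wf_cmb (N : ℕ) (Φ : List F3) : WF (cmb N Φ) := wf_inst

theorem cmb_iff {N : ℕ} (hN : 0 < N) (Φ : List F3) :
    FFVS (cmb N Φ) ↔ ∃ φ ∈ Φ, good N φ = true ∧ SAT3 φ := by
  unfold cmb
  rw [inst_iff (grps_three _ _ _)]
  constructor
  · intro h
    obtain ⟨φ, hφ, hs⟩ := sat_of_sel hN (fun φ hφ => (List.mem_filter.1 hφ).2) (by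
      refine (List.length_filter_le _ _).trans ?_
      rw [Nat.size_eq_bits_len]
      exact (Nat.lt_size_self _).le) h
    exact ⟨φ, (List.mem_filter.1 hφ).1, (List.mem_filter.1 hφ).2, hs⟩
  · rintro ⟨φ, hφ, hg, hs⟩
    exact sel_of_sat φ (List.mem_filter.2 ⟨hφ, hg⟩) hs

theorem len_uni (N L : ℕ) : (uni N L).length = 6 * (N * N) + 2 * (N * L) + 1 := by
  simp only [uni, List.length_cons, List.length_append, List.length_flatMap, List.length_nil,
    List.map_const', List.length_range, List.sum_replicate, smul_eq_mul]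
  ring

theorem k_cmb (N : ℕ) (Φ : List F3) :
    (cmb N Φ).k = 12 * (N * N) + 4 * (N * Φ.length.bits.length) + 4 * N + 4 := by
  show kk _ _ = _
  unfold kk
  rw [len_uni, grps_len]
  ring

end Pool.Agent.H801.Fvs
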